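import Pool.Agent.H292Z.MGrp.HM

set_option autoImplicit false

/-! Divisible groups, embeddings into sums of circles, and the main embedding lemma. -/

namespace Pool.Agent.H292Z.MGrp

open Filter Topology

/-- the circle -/
abbrev T : Type := UnitAddCircle

/-- divisibility -/
def Div (Q : Type) [AddCommGroup Q] : Prop := ∀ n : ℤ, n ≠ 0 → ∀ a : Q, ∃ b, n • b = a

lemma div_T : Div T := fun n hn a => ⟨DivisibleBy.div a n, DivisibleBy.div_cancel a hn⟩

lemma Div.pi {Q : Type} [AddCommGroup Q] (h : Div Q) (ι : Type) : Div (ι → Q) := fun n hn a => by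
  choose b hb using fun i => h n hn (a i)
  exact ⟨b, funext hb⟩

lemma Div.finsupp' {Q : Type} [AddCommGroup Q] (h : Div Q) {ι : Type} {n : ℤ} (hn : n ≠ 0)
    (a : ι →₀ Q) : ∃ b : ι →₀ Q, n • b = a ∧ ∀ i, a i = 0 → b i = 0 := by
  classical
  choose d hd using h n hn
  refine ⟨a.mapRange (fun q => if q = 0 then 0 else d q) (by simp), ?_, fun i hi => by simp [hi]⟩
  ext i
  simp only [Finsupp.smul_apply, Finsupp.mapRange_apply]
  split_ifs with h0
  · simp [h0]
  · exact hd _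

lemma Div.finsupp {Q : Type} [AddCommGroup Q] (h : Div Q) (ι : Type) : Div (ι →₀ Q) :=
  fun _ hn a => (h.finsupp' hn a).imp fun _ h => h.1

lemma Div.ext {M N Q : Type} [AddCommGroup M] [AddCommGroup N] [AddCommGroup Q] (hQ : Div Q)
    (f : M →+ N) (g : M →+ Q) (hf : ∀ x, f x = 0 → g x = 0) :
    ∃ h : N →+ Q, ∀ x, h (f x) = g x := by
  let _ : DivisibleBy Q ℤ := divisibleByOfSMulRightSurj Q ℤ fun hn => hQ _ hn
  obtain ⟨h, hh⟩ := (Module.Baer.of_divisible Q).extension_property_addMonoidHom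
    (QuotientAddGroup.kerLift f) (QuotientAddGroup.kerLift_injective f)
    (QuotientAddGroup.lift f.ker g fun x hx => hf x hx)
  exact ⟨h, fun x => DFunLike.congr_fun hh (QuotientAddGroup.mk x)⟩

lemma exists_theta (n : ℕ) : ∃ θ : T, addOrderOf θ = n := by
  rcases n.eq_zero_or_pos with rfl | hn
  · refine ⟨((√2 : ℝ) : T), addOrderOf_eq_zero_iff.2 ?_⟩
    rw [AddCircle.not_isOfFinAddOrder_iff_forall_rat_ne_div]
    intro q hq
    exact irrational_sqrt_two ⟨q, by simpa using hq⟩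
  · exact ⟨_, AddCircle.addOrderOf_period_div hn⟩

lemma exists_embed (Q : Type) [AddCommGroup Q] :
    ∃ e : Q →+ (Q →₀ T), Function.Injective e := by
  classical
  let 𝒮 : Set (AddSubgroup (Q × (Q →₀ T))) := {Γ | (∀ f, (0, f) ∈ Γ → f = 0) ∧
    (∀ x, (x, 0) ∈ Γ → x = 0) ∧ ∀ z ∈ Γ, ∀ y, z.2 y ≠ 0 → ∃ g, (y, g) ∈ Γ}
  obtain ⟨Γ, -, hΓ⟩ := zorn_le_nonempty₀ 𝒮 (fun c hc hchain y hy => by
    have hm : ∀ z, z ∈ sSup c ↔ ∃ Γ ∈ c, z ∈ Γ := fun z =>
      AddSubgroup.mem_sSup_of_directedOn ⟨y, hy⟩ hchain.directedOn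
    refine ⟨sSup c, ⟨fun f hf => ?_, fun x hx => ?_, fun z hz y hy => ?_⟩, fun z hz => le_sSup hz⟩
    · obtain ⟨Γ, h1, h2⟩ := (hm _).1 hf
      exact (hc h1).1 f h2
    · obtain ⟨Γ, h1, h2⟩ := (hm _).1 hx
      exact (hc h1).2.1 x h2
    · obtain ⟨Γ, h1, h2⟩ := (hm _).1 hz
      obtain ⟨g, hg⟩ := (hc h1).2.2 z h2 y hy
      exact ⟨g, (hm _).2 ⟨Γ, h1, hg⟩⟩) ⊥ ⟨by simp, by simp, by simp⟩
  obtain ⟨h1, h2, h3⟩ := hΓ.prop
  have htot : ∀ x, ∃ f, (x, f) ∈ Γ := by
    intro x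
    by_contra hx
    let W : AddSubgroup Q := Γ.map (AddMonoidHom.fst _ _)
    have hW : ∀ y, y ∈ W ↔ ∃ f, (y, f) ∈ Γ := fun y =>
      ⟨fun ⟨z, hz, h⟩ => ⟨z.2, by rw [← h]; exact hz⟩, fun ⟨f, hf⟩ => ⟨_, hf, rfl⟩⟩
    set n := addOrderOf (QuotientAddGroup.mk x : Q ⧸ W)
    have hn : ∀ k : ℤ, (n : ℤ) ∣ k ↔ k • x ∈ W := fun k => by
      rw [addOrderOf_dvd_iff_zsmul_eq_zero, ← QuotientAddGroup.mk_zsmul,
        QuotientAddGroup.eq_zero_iff]
    obtain ⟨θ, hθ⟩ := exists_theta n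
    have hθ' : ∀ k : ℤ, (n : ℤ) ∣ k ↔ k • θ = 0 := fun k => by
      rw [← hθ, addOrderOf_dvd_iff_zsmul_eq_zero]
    obtain ⟨g, hg1, hg2⟩ : ∃ g : Q →₀ T, ((n : ℤ) • x, (n : ℤ) • g) ∈ Γ ∧ ∀ y, g y ≠ 0 → y ∈ W := by
      by_cases h0 : (n : ℤ) = 0
      · exact ⟨0, by rw [h0, zero_smul, zero_smul]; exact Γ.zero_mem, by simp⟩
      · obtain ⟨f, hf⟩ := (hW _).1 ((hn n).1 dvd_rfl)
        obtain ⟨g, hg, hg'⟩ := div_T.finsupp' h0 f
        exact ⟨g, hg ▸ hf, fun y hy => (hW y).2 (h3 _ hf y fun h => hy (hg' y h))⟩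
    set u : Q × (Q →₀ T) := (x, g + Finsupp.single x θ) with hu
    have hnu : ∀ k : ℤ, (n : ℤ) ∣ k → k • u ∈ Γ := by
      rintro _ ⟨k, rfl⟩
      rw [mul_comm, mul_smul]
      refine Γ.zsmul_mem ?_ k
      have : (n : ℤ) • u = ((n : ℤ) • x, (n : ℤ) • g) := by
        rw [hu, Prod.smul_mk, smul_add, Finsupp.smul_single, (hθ' n).1 dvd_rfl]; simp
      rwa [this]
    have hmem : ∀ z, z ∈ Γ ⊔ AddSubgroup.zmultiples u ↔ ∃ γ ∈ Γ, ∃ k : ℤ, γ + k • u = z := fun z => by
      simp [AddSubgroup.mem_sup, AddSubgroup.mem_zmultiples_iff]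
    have huS : u ∈ Γ ⊔ AddSubgroup.zmultiples u := (hmem u).2 ⟨0, Γ.zero_mem, 1, by simp⟩
    have hS : Γ ⊔ AddSubgroup.zmultiples u ∈ 𝒮 := by
      refine ⟨fun f hf => ?_, fun y hy => ?_, fun z hz y hy => ?_⟩
      · obtain ⟨γ, hγ, k, h⟩ := (hmem _).1 hf
        have h4 : γ.1 + k • x = 0 := congrArg Prod.fst h
        have h5 : k • x ∈ W := by
          rw [eq_neg_of_add_eq_zero_right h4]; exact W.neg_mem ⟨γ, hγ, rfl⟩
        exact h1 f (h ▸ Γ.add_mem hγ (hnu k ((hn k).2 h5)))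
      · obtain ⟨γ, hγ, k, h⟩ := (hmem _).1 hy
        have h4 : γ.2 x + k • (g x + Finsupp.single x θ x) = 0 :=
          DFunLike.congr_fun (congrArg Prod.snd h) x
        have h5 : γ.2 x = 0 := by_contra fun h => hx (h3 γ hγ x h)
        have h6 : g x = 0 := by_contra fun h => hx ((hW x).1 (hg2 x h))
        rw [h5, h6, zero_add, zero_add, Finsupp.single_eq_same] at h4
        exact h2 y (h ▸ Γ.add_mem hγ (hnu k ((hθ' k).2 h4)))
      · obtain ⟨γ, hγ, k, rfl⟩ := (hmem _).1 hz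
        by_cases hyx : y = x
        · exact ⟨_, by rw [hyx]; exact huS⟩
        · have h4 : γ.2 y + k • (g y + Finsupp.single x θ y) ≠ 0 := hy
          rw [Finsupp.single_eq_of_ne hyx, add_zero] at h4
          have h5 : ∃ f, (y, f) ∈ Γ := by
            by_cases h6 : γ.2 y = 0
            · exact (hW y).1 (hg2 y fun h => h4 (by rw [h6, h]; simp))
            · exact h3 γ hγ y h6
          exact h5.imp fun f hf => AddSubgroup.mem_sup_left hf
    exact hx ⟨_, hΓ.le_of_ge hS le_sup_left huS⟩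
  choose e he using htot
  refine ⟨AddMonoidHom.mk' e fun a b => sub_eq_zero.1 (h1 _ ?_), (injective_iff_map_eq_zero _).2
    fun x hx => h2 x ?_⟩
  · simpa using Γ.sub_mem (he (a + b)) (Γ.add_mem (he a) (he b))
  · have : e x = 0 := hx
    exact this ▸ he x

lemma norm_T (t : T) : ‖t‖ ≤ 1 := by
  have := AddCircle.norm_le_half_period (1 : ℝ) (x := t) one_ne_zero
  rw [abs_one] at this; linarith

/-- a norm on a direct sum of copies of `T ^ ℕ` -/
noncomputable def rho (Λ : Type) : AddGroupNorm (Λ →₀ ℕ → T) :=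
  have hb : ∀ a : Λ →₀ ℕ → T, BddAbove (Set.range fun p : Λ × ℕ => ‖a p.1 p.2‖ / (p.2 + 1)) :=
    fun a => ⟨1, by
      rintro _ ⟨p, rfl⟩
      exact (div_le_self (norm_nonneg _) (by simp)).trans (norm_T _)⟩
  have h0 : ∀ a : Λ →₀ ℕ → T, 0 ≤ ⨆ p : Λ × ℕ, ‖a p.1 p.2‖ / (p.2 + 1) :=
    fun a => Real.iSup_nonneg fun p => by positivity
  { toFun := fun a => ⨆ p : Λ × ℕ, ‖a p.1 p.2‖ / (p.2 + 1)
    map_zero' := by simp
    add_le' := fun a b => Real.iSup_le (fun p => by
      refine le_trans ?_ (add_le_add (le_ciSup (hb a) p) (le_ciSup (hb b) p))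
      rw [← add_div]
      exact div_le_div_of_nonneg_right (norm_add_le _ _) (by positivity)) (add_nonneg (h0 a) (h0 b))
    neg' := fun a => by simp
    eq_zero_of_map_eq_zero' := fun a ha => by
      ext α i
      have h1 : ‖a α i‖ / (i + 1) ≤ 0 := (le_ciSup (hb a) (α, i)).trans ha.le
      rw [div_le_iff₀ (by positivity), zero_mul] at h1
      exact norm_le_zero_iff.1 h1 }

lemma rho_le {Λ : Type} {a : Λ →₀ ℕ → T} {ε : ℝ} (hε : 0 ≤ ε)
    (h : ∀ α i, ‖a α i‖ / (i + 1) ≤ ε) : rho Λ a ≤ ε :=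
  Real.iSup_le (fun p => h p.1 p.2) hε

lemma rho_single {Λ : Type} (α : Λ) (i : ℕ) (t : T) :
    rho Λ (Finsupp.single α (Pi.single i t)) ≤ ‖t‖ / (i + 1) := by
  classical
  refine rho_le (by positivity) fun β k => ?_
  by_cases h : β = α
  · subst h
    by_cases h' : k = i
    · subst h'; simp
    · simp only [Finsupp.single_eq_same, Pi.single_eq_of_ne h', norm_zero, zero_div]; positivity
  · simp only [Finsupp.single_eq_of_ne h, Pi.zero_apply, norm_zero, zero_div]; positivity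

theorem PC.embed {L Λ : Type} [AddCommGroup L] (j : L ↪ Λ) (n : ℕ) (hn : ∀ x : L, n • x = 0)
    (y : R × Λ × ℕ → L) (θ : Λ × ℕ → T)
    (hind : ∀ k : R × Λ × ℕ →₀ ℤ, (k.sum fun i c => c • y i) = 0 → ∀ i, k i • y i = 0)
    (hθ : ∀ i (c : ℤ), c • y i = 0 ↔ c • θ i.2 = 0)
    (hdense : ∀ α (t : T), n • t = 0 → ∀ ε > 0, ∃ M, ∀ m ≥ M, ∃ c : ℤ, ‖c • θ (α, m) - t‖ < ε) :
    PC L := by
  classical
  let v : Λ × ℕ → Λ →₀ ℕ → T := fun p => Finsupp.single p.1
    (Pi.single (Nat.unpair p.2).1 (θ p) + Pi.single (p.2 + 1) (θ p))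
  let w : R × Λ × ℕ → R →₀ Λ →₀ ℕ → T := fun i => Finsupp.single i.1 (v i.2)
  let ψ : (R × Λ × ℕ →₀ ℤ) →+ L := Finsupp.liftAddHom fun i => zmultiplesHom L (y i)
  let χ : (R × Λ × ℕ →₀ ℤ) →+ (R →₀ Λ →₀ ℕ → T) :=
    Finsupp.liftAddHom (N := R →₀ Λ →₀ ℕ → T) (M := ℤ) fun i => zmultiplesHom _ (w i)
  have hψ : ∀ k, ψ k = k.sum fun i c => c • y i := fun k => rfl
  have hχ : ∀ k, χ k = k.sum fun i c => c • w i := fun k => rfl
  have hw : ∀ i (c : ℤ), c • θ i.2 = 0 → c • w i = 0 := fun i c h => by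
    simp only [w, v, Finsupp.smul_single, smul_add, ← Pi.single_smul, h]; simp
  have h1 : ∀ k, ψ k = 0 → χ k = 0 := fun k hk =>
    Finset.sum_eq_zero fun i _ => hw i _ ((hθ i _).1 (hind k hk i))
  have h2 : ∀ k, χ k = 0 → ψ k = 0 := by
    intro k hk
    refine Finset.sum_eq_zero fun i _ => (hθ i _).2 ?_
    by_contra hi
    obtain ⟨⟨r, α, m⟩, hi1, hmax⟩ := Finset.exists_max_image
      (k.support.filter fun i => k i • θ i.2 ≠ 0) (fun i => i.2.2)
      ⟨i, Finset.mem_filter.2 ⟨Finsupp.mem_support_iff.2 fun h => hi (by simp [h]), hi⟩⟩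
    obtain ⟨hi1, hi2⟩ := Finset.mem_filter.1 hi1
    have h3 : (χ k) r α (m + 1) = 0 := by rw [hk]; rfl
    rw [hχ, Finsupp.sum, Finsupp.finsetSum_apply, Finsupp.finsetSum_apply, Finset.sum_apply,
      Finset.sum_eq_single_of_mem (r, α, m) hi1] at h3
    · apply hi2
      have h4 : m + 1 ≠ (Nat.unpair m).1 := by have := Nat.unpair_left_le m; omega
      simpa [w, v, Pi.single_eq_of_ne h4] using h3
    · rintro ⟨r', α', m'⟩ hi' hne
      by_cases h5 : k (r', α', m') • θ (α', m') = 0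
      · rw [hw _ _ h5]; rfl
      have h6 : m' ≤ m := hmax _ (Finset.mem_filter.2 ⟨hi', h5⟩)
      by_cases hr : r = r'
      · subst hr
        by_cases hα : α = α'
        · subst hα
          have h7 : m + 1 ≠ m' + 1 := fun h => hne (by rw [Nat.succ_injective h])
          have h4 : m + 1 ≠ (Nat.unpair m').1 := by have := Nat.unpair_left_le m'; omega
          simp [w, v, Pi.single_eq_of_ne h4, Pi.single_eq_of_ne h7]
        · simp [w, v, Finsupp.single_eq_of_ne hα]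
      · simp [w, Finsupp.single_eq_of_ne hr]
  obtain ⟨π₁, hπ₁⟩ := (((div_T.pi ℕ).finsupp Λ).finsupp R).ext ψ χ h1
  let cst : T →+ (ℕ → T) := Pi.constAddMonoidHom ℕ T
  obtain ⟨lim, hlim⟩ := div_T.ext ((Finsupp.coeFnAddHom (ι := ℕ) (M := T)).coprod cst)
    (AddMonoidHom.snd _ _) (by
      rintro ⟨a, t⟩ h
      obtain ⟨i, hi⟩ := Infinite.exists_notMem_finset a.support
      have h3 : a i + t = 0 := congrFun h i
      rwa [Finsupp.notMem_support_iff.1 hi, zero_add] at h3)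
  have hl1 : ∀ i t, lim (Pi.single i t) = 0 := fun i t => by
    have := hlim (Finsupp.single i t, 0)
    simp only [AddMonoidHom.coprod_apply, map_zero, add_zero, AddMonoidHom.coe_snd] at this
    rw [← Finsupp.single_eq_pi_single]
    exact this
  have hl2 : ∀ t, lim (cst t) = t := fun t => by simpa using hlim (0, t)
  let P : (R →₀ Λ →₀ ℕ → T) →+ (Λ →₀ T) :=
    Finsupp.liftAddHom fun _ => Finsupp.mapRange.addMonoidHom lim
  let r₀ : R := ⟨1, one_pos, le_rfl⟩
  let ι : (Λ →₀ T) →+ (R →₀ Λ →₀ ℕ → T) :=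
    (Finsupp.singleAddHom r₀).comp (Finsupp.mapRange.addMonoidHom cst)
  have hPι : ∀ a, P (ι a) = a := fun a => by
    ext α; simp [P, ι, hl2]
  have hPχ : ∀ k, P (χ k) = 0 := fun k => by
    rw [hχ, Finsupp.sum, map_sum]
    refine Finset.sum_eq_zero fun i _ => ?_
    have : P (w i) = 0 := by simp [P, w, v, hl1]
    exact (map_zsmul P (k i) (w i)).trans (by rw [this, smul_zero])
  obtain ⟨e, he⟩ := exists_embed (L ⧸ ψ.range)
  let Θ : L →+ (Λ →₀ T) := ((Finsupp.mapDomain.addMonoidHom fun q : L ⧸ ψ.range => j q.out).comp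
    e).comp (QuotientAddGroup.mk' _)
  have hΘ : ∀ x, Θ x = 0 ↔ x ∈ ψ.range := fun x => by
    rw [← QuotientAddGroup.eq_zero_iff, ← map_eq_zero_iff e he,
      ← map_eq_zero_iff (Finsupp.mapDomain.addMonoidHom fun q : L ⧸ ψ.range => j q.out)
        (Finsupp.mapDomain_injective (j.injective.comp Quotient.out_injective))]
    rfl
  let π : L →+ (R →₀ Λ →₀ ℕ → T) := π₁ - (ι.comp P).comp π₁ + ι.comp Θ
  have hπ : ∀ x, π x = π₁ x - ι (P (π₁ x)) + ι (Θ x) := fun x => rfl
  have hπψ : ∀ k, π (ψ k) = χ k := fun k => by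
    rw [hπ, hπ₁, hPχ, (hΘ _).2 ⟨k, rfl⟩]; simp
  let C : AddSubgroup (Λ →₀ ℕ → T) := ⨅ r : R, AddSubgroup.comap (G := Λ →₀ ℕ → T)
    (N := R →₀ Λ →₀ ℕ → T) (Finsupp.singleAddHom r) χ.range
  have hC : ∀ a, a ∈ C ↔ ∀ r : R, Finsupp.single r a ∈ χ.range := fun a => by
    simp only [C, AddSubgroup.mem_iInf, AddSubgroup.mem_comap, Finsupp.singleAddHom_apply]
  refine PC.hm (rho Λ) C π ((injective_iff_map_eq_zero _).2 fun x hx => ?_) (fun f hf => ?_)
    fun g r ε hε => ?_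
  · have h3 : Θ x = 0 := by
      have := congrArg P hx
      have hs : P (π₁ x - ι (P (π₁ x))) = P (π₁ x) - P (ι (P (π₁ x))) := map_sub P _ _
      rwa [hπ, map_add, hs, hPι, hPι, sub_self, zero_add, map_zero] at this
    obtain ⟨k, rfl⟩ := (hΘ x).1 h3
    exact h2 k (by rw [← hπψ, hx])
  · have : f ∈ χ.range := by
      rw [← f.sum_single]
      exact AddSubgroup.sum_mem _ fun r _ => (hC _).1 (hf r) r
    obtain ⟨k, rfl⟩ := this
    exact ⟨ψ k, hπψ k⟩
  · let I : NormedAddCommGroup (Λ →₀ ℕ → T) := (rho Λ).toNormedAddCommGroup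
    have hnorm : ∀ a : Λ →₀ ℕ → T, ‖a‖ = rho Λ a := fun _ => rfl
    have htor : ∀ α i, n • π g r α i = 0 := fun α i => by
      have : n • π g = 0 := by rw [← map_nsmul, hn, map_zero]
      exact congrFun (DFunLike.congr_fun (DFunLike.congr_fun this r) α) i
    have hone : ∀ α i (t : T), n • t = 0 →
        Finsupp.single α (Pi.single i t) ∈ C.topologicalClosure := by
      intro α i t ht
      refine Metric.mem_closure_iff.2 fun δ hδ => ?_
      obtain ⟨M, hM⟩ := hdense α t ht (δ / 2) (by positivity)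
      obtain ⟨M', hM'⟩ := exists_nat_one_div_lt (show 0 < δ / 2 by positivity)
      set m := Nat.pair i (max M M') with hm
      have hle : max M M' ≤ m := Nat.right_le_pair _ _
      obtain ⟨c, hc⟩ := hM m (le_of_max_le_left hle)
      refine ⟨c • v (α, m), C.zsmul_mem ((hC _).2 fun r => ⟨Finsupp.single (r, α, m) 1, ?_⟩) c, ?_⟩
      · simp [χ, w]
      · rw [dist_comm, dist_eq_norm]
        have h3 : c • v (α, m) - Finsupp.single α (Pi.single i t) =
            Finsupp.single α (Pi.single i (c • θ (α, m) - t)) +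
              Finsupp.single α (Pi.single (m + 1) (c • θ (α, m))) := by
          simp only [v, hm, Nat.unpair_pair, Finsupp.smul_single, smul_add, ← Pi.single_smul,
            Pi.single_sub, Finsupp.single_add, Finsupp.single_sub]
          abel
        rw [h3]
        have h4 := (rho_single α i (c • θ (α, m) - t)).trans
          (div_le_self (norm_nonneg _) (by simp))
        have h5 := (rho_single α (m + 1) (c • θ (α, m))).trans
          (div_le_div_of_nonneg_right (norm_T _) (by positivity))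
        have h6 : (1 : ℝ) / ((m + 1 : ℕ) + 1) ≤ 1 / (M' + 1) := by
          refine one_div_le_one_div_of_le (by positivity) ?_
          have : (M' : ℝ) ≤ m := by exact_mod_cast le_of_max_le_right hle
          push_cast; linarith
        refine (norm_add_le _ _).trans_lt ?_
        rw [hnorm, hnorm]; linarith
    have htwo : ∀ α (b : ℕ → T), (∀ i, n • b i = 0) →
        Finsupp.single α b ∈ C.topologicalClosure := by
      intro α b hb
      refine C.isClosed_topologicalClosure.closure_subset (Metric.mem_closure_iff.2 fun δ hδ => ?_)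
      obtain ⟨M, hM⟩ := exists_nat_one_div_lt hδ
      refine ⟨∑ i ∈ Finset.range M, Finsupp.single α (Pi.single i (b i)),
        AddSubgroup.sum_mem _ fun i _ => hone α i _ (hb i), ?_⟩
      rw [dist_eq_norm, hnorm]
      refine (rho_le (by positivity) fun β i => ?_).trans_lt hM
      by_cases hi : i < M
      · have : (Finsupp.single α b - ∑ i ∈ Finset.range M, Finsupp.single α (Pi.single i (b i)) :
            Λ →₀ ℕ → T) β i = 0 := by
          rw [← Finsupp.single_finsetSum, ← Finsupp.single_sub, Finsupp.single_apply]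
          split_ifs
          · simp [Finset.sum_apply, Pi.single_apply, hi]
          · rfl
        rw [this, norm_zero, zero_div]; positivity
      · refine (div_le_div_of_nonneg_right (norm_T _) (by positivity)).trans
          (one_div_le_one_div_of_le (by positivity) ?_)
        have : (M : ℝ) ≤ i := by exact_mod_cast not_lt.1 hi
        linarith
    have : π g r ∈ C.topologicalClosure := by
      rw [← (π g r).sum_single]
      exact AddSubgroup.sum_mem _ fun α _ => htwo α _ (htor α)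
    obtain ⟨c, hc, h⟩ := Metric.mem_closure_iff.1 this ε hε
    exact ⟨c, hc, by rwa [dist_comm, dist_eq_norm] at h⟩

end Pool.Agent.H292Z.MGrp
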