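import Pool.Agent.H292Z.MGrp.Alg

set_option autoImplicit false

/-! Splitting off bounded homogeneous summands. -/

namespace Pool.Agent.H292Z.MGrp

open Cardinal

/-- integer combinations of a family -/
noncomputable def comb {I G : Type} [AddCommGroup G] (z : I → G) : (I →₀ ℤ) →+ G :=
  Finsupp.liftAddHom fun i => zmultiplesHom G (z i)

lemma comb_apply {I G : Type} [AddCommGroup G] (z : I → G) (k : I →₀ ℤ) :
    comb z k = k.sum fun i c => c • z i := rfl

lemma comb_single {I G : Type} [AddCommGroup G] (z : I → G) (i : I) (c : ℤ) :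
    comb z (Finsupp.single i c) = c • z i := by simp [comb]

lemma map_comb {I G H : Type} [AddCommGroup G] [AddCommGroup H] (φ : G →+ H) (z : I → G)
    (k : I →₀ ℤ) : φ (comb z k) = comb (fun i => φ (z i)) k := by
  simp only [comb_apply, Finsupp.sum, map_sum, map_zsmul]

lemma comb_mapDomain {I J G : Type} [AddCommGroup G] (z : J → G) (β : I → J) (k : I →₀ ℤ) :
    comb z (k.mapDomain β) = comb (fun i => z (β i)) k := by
  induction k using Finsupp.induction_linear with
  | zero => simp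
  | add f g hf hg => rw [Finsupp.mapDomain_add, map_add, map_add, hf, hg]
  | single i c => rw [Finsupp.mapDomain_single, comb_single, comb_single]

lemma card_comb {I G : Type} [AddCommGroup G] (z : I → G) : #(comb z).range ≤ max #I ℵ₀ := by
  refine (mk_range_le (f := comb z)).trans ?_
  rcases isEmpty_or_nonempty I with h | h
  · exact mk_le_aleph0.trans (le_max_right _ _)
  · rw [mk_finsupp_of_infinite', mk_int]

lemma mk_R : #R = 𝔠 := mk_Ioc_real one_pos

lemma exists_emb {I : Type} (h : 𝔠 ≤ #I) : Nonempty (R × I × ℕ ↪ I) := by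
  rw [← Cardinal.le_def]
  have h0 : ℵ₀ ≤ #I := aleph0_le_continuum.trans h
  simp only [mk_prod, lift_id, mk_R, mk_nat]
  rw [mul_aleph0_eq h0, mul_eq_right h0 h continuum_ne_zero]

/-- the element `1 / q` of the circle -/
noncomputable def th (q : ℕ) : T := (((1 : ℝ) / q : ℝ) : T)

lemma th_zsmul {q : ℕ} (hq : 0 < q) (c : ℤ) : c • th q = 0 ↔ (q : ℤ) ∣ c := by
  rw [← addOrderOf_dvd_iff_zsmul_eq_zero, th, AddCircle.addOrderOf_period_div hq]

lemma th_surj {q : ℕ} (hq : 0 < q) {t : T} (ht : q • t = 0) : ∃ c : ℤ, c • th q = t := by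
  obtain ⟨m, -, rfl⟩ := (AddCircle.nsmul_eq_zero_iff hq).1 ht
  refine ⟨m, ?_⟩
  rw [th, ← AddCircle.coe_zsmul]
  congr 1
  simp [div_eq_mul_inv]

lemma PC.bounded {L I : Type} [AddCommGroup L] {n : ℕ} (hn0 : 0 < n) (hn : ∀ x : L, n • x = 0)
    (z : I → L) (hz : ∀ k, comb z k = 0 → ∀ i, (n : ℤ) ∣ k i) (hI : 𝔠 ≤ #I) (hL : #L ≤ #I) :
    PC L := by
  obtain ⟨j⟩ := (Cardinal.le_def _ _).1 hL
  obtain ⟨β⟩ := exists_emb hI
  have h1 : ∀ i (c : ℤ), (n : ℤ) ∣ c → c • z i = 0 := by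
    rintro i _ ⟨c, rfl⟩
    rw [mul_comm, mul_smul, natCast_zsmul, hn, smul_zero]
  refine PC.embed j n hn (fun i => z (β i)) (fun _ => th n) (fun k hk i => h1 _ _ ?_)
    (fun i c => ?_) fun α t ht ε hε => ⟨0, fun m _ => ?_⟩
  · have := hz (k.mapDomain β) (by rw [comb_mapDomain]; exact hk) (β i)
    rwa [Finsupp.mapDomain_apply β.injective] at this
  · rw [th_zsmul hn0]
    refine ⟨fun h => ?_, h1 _ _⟩
    simpa using hz (Finsupp.single (β i) c) (by rw [comb_single, h]) (β i)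
  · obtain ⟨c, hc⟩ := th_surj hn0 ht
    exact ⟨c, by simpa [hc] using hε⟩

/-- no element killed by `q` is independent modulo `q M` -/
def Cl (q : ℕ) (M : Type) [AddCommGroup M] : Prop :=
  ∀ x : M, q • x = 0 → ∃ c : ℤ, ¬ (q : ℤ) ∣ c ∧ ∃ y : M, c • x = q • y

lemma Cl.summand {q : ℕ} {M S N : Type} [AddCommGroup M] [AddCommGroup S] [AddCommGroup N]
    (e : M ≃+ S × N) (h : Cl q M) : Cl q N := fun x hx => by
  obtain ⟨c, hc, y, hy⟩ := h (e.symm (0, x)) (by rw [← map_nsmul]; simp [hx])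
  refine ⟨c, hc, (e y).2, ?_⟩
  have := congrArg (fun a => (e a).2) hy
  simpa [map_zsmul, map_nsmul] using this

/-- direct sums of cyclic groups of order `q` (what is needed of them) -/
def Free (q : ℕ) (S : Type) [AddCommGroup S] : Prop :=
  (∀ s : S, q • s = 0) ∧ ∃ (I : Type) (z : I → S), (∀ k, comb z k = 0 → ∀ i, (q : ℤ) ∣ k i) ∧
    #S ≤ max #I ℵ₀

lemma Free.cases {q : ℕ} (hq : 0 < q) {S : Type} [AddCommGroup S] (h : Free q S) :
    PC S ∨ #S ≤ 𝔠 := by
  obtain ⟨h1, I, z, h2, h3⟩ := h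
  rcases le_total 𝔠 #I with h | h
  · exact Or.inl (PC.bounded hq h1 z h2 h
      (h3.trans (max_le le_rfl (aleph0_le_continuum.trans h))))
  · exact Or.inr (h3.trans (max_le h aleph0_le_continuum))

lemma split (G : Type) [AddCommGroup G] {q : ℕ} (hq : 2 ≤ q) :
    ∃ (S M : Type) (_ : AddCommGroup S) (_ : AddCommGroup M),
      Nonempty (G ≃+ S × M) ∧ Free q S ∧ Cl q M := by
  classical
  have hq0 : 0 < q := by omega
  let Q : AddSubgroup G := (nsmulAddMonoidHom q : G →+ G).range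
  let _ : Module (ZMod q) (G ⧸ Q) := QuotientAddGroup.zmodModule fun x => ⟨x, rfl⟩
  let v : {x : G // q • x = 0} → G ⧸ Q := fun x => QuotientAddGroup.mk x.1
  obtain ⟨s, hs, hmax⟩ := exists_maximal_linearIndepOn (ZMod q) v
  let z : s → G := fun i => i.1.1
  have hind : ∀ (k : s →₀ ℤ) (y : G), comb z k = q • y → ∀ i, (q : ℤ) ∣ k i := by
    intro k y hk i
    by_cases hi : i ∈ k.support
    · rw [← ZMod.intCast_zmod_eq_zero_iff_dvd]
      refine linearIndependent_iff'.1 hs k.support (fun j => (k j : ZMod q)) ?_ i hi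
      have h1 : (QuotientAddGroup.mk' Q) (comb z k) = 0 :=
        (QuotientAddGroup.eq_zero_iff _).2 ⟨y, hk.symm⟩
      rw [map_comb] at h1
      simp only [Int.cast_smul_eq_zsmul]
      exact h1
    · simp [Finsupp.notMem_support_iff.1 hi]
  have hz0 : ∀ k : s →₀ ℤ, (∀ i, (q : ℤ) ∣ k i) → comb z k = 0 := fun k hk =>
    Finset.sum_eq_zero fun i _ => by
      obtain ⟨c, hc⟩ := hk i
      change k i • z i = 0
      rw [hc, mul_comm, mul_smul, natCast_zsmul, i.1.2, smul_zero]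
  let g : (s →₀ ℤ) →+ (s →₀ T) := Finsupp.mapRange.addMonoidHom (zmultiplesHom T (th q))
  have hg : ∀ k i, g k i = k i • th q := fun k i => rfl
  have hg0 : ∀ k, g k = 0 ↔ ∀ i, (q : ℤ) ∣ k i := fun k => by
    simp only [DFunLike.ext_iff, hg, Finsupp.zero_apply, th_zsmul hq0]
  obtain ⟨h, hh⟩ := (div_T.finsupp s).ext ((comb z).coprod (nsmulAddMonoidHom q))
    (g.comp (AddMonoidHom.fst _ _)) (by
      rintro ⟨k, y⟩ hk
      have h1 : comb z k + q • y = 0 := hk
      exact (hg0 k).2 (hind k (-y) (by rw [smul_neg]; exact eq_neg_of_add_eq_zero_left h1)))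
  have hh1 : ∀ k, h (comb z k) = g k := fun k => by simpa using hh (k, 0)
  have hh2 : ∀ y, h (q • y) = 0 := fun y => by simpa using hh (0, y)
  have hdec : ∀ x, ∃ k, x - comb z k ∈ h.ker := fun x => by
    have h1 : ∀ i, ∃ c : ℤ, c • th q = h x i ∧ (h x i = 0 → c = 0) := fun i => by
      by_cases h0 : h x i = 0
      · exact ⟨0, by simp [h0], fun _ => rfl⟩
      · have : q • h x = 0 := by rw [← map_nsmul, hh2]
        obtain ⟨c, hc⟩ := th_surj hq0 (t := h x i) (DFunLike.congr_fun this i)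
        exact ⟨c, hc, fun h => absurd h h0⟩
    choose c hc hc' using h1
    refine ⟨Finsupp.onFinset (h x).support c fun i hi => Finsupp.mem_support_iff.2 fun h0 =>
      hi (hc' i h0), ?_⟩
    rw [AddMonoidHom.mem_ker, map_sub, hh1, sub_eq_zero]
    ext i
    rw [hg]; exact (hc i).symm
  refine ⟨(comb z).range, h.ker, inferInstance, inferInstance,
    ⟨(AddEquiv.ofBijective ((comb z).range.subtype.coprod h.ker.subtype) ⟨?_, fun x => ?_⟩).symm⟩,
    ⟨?_, s, fun i => ⟨z i, Finsupp.single i 1, by simp [comb_single]⟩, fun k hk => ?_,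
      card_comb z⟩, ?_⟩
  · refine (injective_iff_map_eq_zero _).2 ?_
    rintro ⟨⟨_, k, rfl⟩, ⟨m, hm⟩⟩ h0
    have h1 : comb z k + m = 0 := h0
    have h2 : g k = 0 := by
      have := congrArg h h1
      rwa [map_add, hh1, map_zero, (AddMonoidHom.mem_ker.1 hm), add_zero] at this
    have h3 := hz0 k ((hg0 k).1 h2)
    rw [h3, zero_add] at h1
    exact Prod.ext (Subtype.ext h3) (Subtype.ext h1)
  · obtain ⟨k, hk⟩ := hdec x
    exact ⟨(⟨_, k, rfl⟩, ⟨_, hk⟩), by simp⟩
  · rintro ⟨_, k, rfl⟩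
    refine Subtype.ext ?_
    have : q • comb z k = 0 := by
      rw [← map_nsmul]; exact hz0 _ fun i => by simp
    exact this
  · refine hind k 0 ?_
    have := congrArg (comb z).range.subtype hk
    rw [map_comb] at this
    simpa using this
  · rintro ⟨x, hx⟩ hqx
    have hqx' : q • x = 0 := congrArg Subtype.val hqx
    have hx' : h x = 0 := hx
    have hi : (⟨x, hqx'⟩ : {x : G // q • x = 0}) ∉ s := fun hi => by
      have h1 := hh1 (Finsupp.single ⟨_, hi⟩ 1)
      rw [comb_single, one_smul] at h1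
      have h2 := (hg0 _).1 (h1.symm.trans hx') ⟨_, hi⟩
      rw [Finsupp.single_eq_same] at h2
      have := Int.le_of_dvd one_pos h2
      omega
    obtain ⟨a, ha, hspan⟩ := hmax _ hi
    obtain ⟨c, rfl⟩ := ZMod.intCast_surjective a
    obtain ⟨k, hk⟩ := Submodule.span_induction
      (p := fun w _ => ∃ k, w = QuotientAddGroup.mk (comb z k))
      (by
        rintro _ ⟨i, hi, rfl⟩
        exact ⟨Finsupp.single ⟨i, hi⟩ 1, by rw [comb_single, one_smul]⟩)
      ⟨0, by simp⟩
      (by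
        rintro _ _ _ _ ⟨k, rfl⟩ ⟨l, rfl⟩
        exact ⟨k + l, by simp⟩)
      (by
        rintro a _ _ ⟨k, rfl⟩
        obtain ⟨c, rfl⟩ := ZMod.intCast_surjective a
        exact ⟨c • k, by rw [Int.cast_smul_eq_zsmul, map_zsmul, QuotientAddGroup.mk_zsmul]⟩) hspan
    rw [Int.cast_smul_eq_zsmul, ← QuotientAddGroup.mk_zsmul, eq_comm, QuotientAddGroup.eq] at hk
    obtain ⟨y, hy⟩ := hk
    have hy' : q • y = -comb z k + c • x := hy
    have h2 : g k = 0 := by
      have := hh2 y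
      rwa [hy', map_add, map_neg, map_zsmul, hx', smul_zero, add_zero, neg_eq_zero, hh1] at this
    rw [hz0 k ((hg0 k).1 h2), neg_zero, zero_add] at hy'
    obtain ⟨l, hl⟩ := hdec y
    refine ⟨c, fun h => ha ((ZMod.intCast_zmod_eq_zero_iff_dvd _ _).2 h), ⟨_, hl⟩, Subtype.ext ?_⟩
    have h3 : q • comb z l = 0 := by
      rw [← map_nsmul]; exact hz0 _ fun i => by simp
    change c • x = q • (y - comb z l)
    rw [smul_sub, h3, sub_zero, hy']

lemma decomp (F : Finset ℕ) (m : ℕ) (hF : ∀ q ∈ F, 2 ≤ q ∧ q ∣ m) (G : Type) [AddCommGroup G] :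
    ∃ (S M B : Type) (_ : AddCommGroup S) (_ : AddCommGroup M) (_ : AddCommGroup B),
      Nonempty (G ≃+ (S × M) × B) ∧ (∀ q ∈ F, Cl q M) ∧ #S ≤ 𝔠 ∧ PC B ∧ ∀ b : B, m • b = 0 := by
  classical
  induction F using Finset.induction_on with
  | empty =>
    exact ⟨Unit, G, Unit, inferInstance, inferInstance, inferInstance,
      ⟨⟨⟨fun x => (((), x), ()), fun x => x.1.2, fun _ => rfl, fun _ => rfl⟩, fun _ _ => rfl⟩⟩,
      by simp, mk_le_aleph0.trans aleph0_le_continuum, PC.unit, fun _ => rfl⟩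
  | insert q F _ ih =>
    obtain ⟨S, M, B, _, _, _, ⟨e⟩, h1, h2, h3, h3'⟩ :=
      ih fun q hq => hF q (Finset.mem_insert_of_mem hq)
    obtain ⟨hq, c, hc⟩ := hF q (Finset.mem_insert_self _ _)
    obtain ⟨S', M', _, _, ⟨e'⟩, h4, h5⟩ := split M hq
    have h6 : ∀ r ∈ insert q F, Cl r M' := fun r hr => by
      rcases Finset.mem_insert.1 hr with rfl | hr
      · exact h5
      · exact (h1 r hr).summand e'
    have e1 : G ≃+ (S × (S' × M')) × B :=
      e.trans (((AddEquiv.refl S).prodCongr e').prodCongr (AddEquiv.refl B))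
    rcases h4.cases (by omega) with h | h
    · exact ⟨S, M', S' × B, inferInstance, inferInstance, inferInstance,
        ⟨e1.trans ⟨⟨fun x => ((x.1.1, x.1.2.2), (x.1.2.1, x.2)),
          fun x => ((x.1.1, (x.2.1, x.1.2)), x.2.2), fun _ => rfl, fun _ => rfl⟩, fun _ _ => rfl⟩⟩,
        h6, h2, h.prod h3, fun b => Prod.ext
          (by rw [Prod.smul_fst, hc, mul_comm, mul_smul, h4.1, smul_zero]; rfl) (h3' b.2)⟩
    · refine ⟨S × S', M', B, inferInstance, inferInstance, inferInstance,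
        ⟨e1.trans ⟨⟨fun x => (((x.1.1, x.1.2.1), x.1.2.2), x.2),
          fun x => ((x.1.1.1, (x.1.1.2, x.1.2)), x.2), fun _ => rfl, fun _ => rfl⟩, fun _ _ => rfl⟩⟩,
        h6, ?_, h3, h3'⟩
      rw [mk_prod, lift_id, lift_id]
      exact (mul_le_mul' h2 h).trans continuum_mul_self.le

/-- the set `d G` -/
def mulSet (d : ℕ) (G : Type) [AddCommGroup G] : Set G := Set.range fun x : G => d • x

lemma card_fib {Q : Type} [AddCommGroup Q] (s t u : Set Q) (p : ℕ)
    (hs : ∀ a ∈ s, ∀ b ∈ s, p • a = p • b → a - b ∈ t) (hu : ∀ a ∈ s, p • a ∈ u) :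
    #s ≤ #u * #t := by
  refine mk_le_mk_mul_of_mk_preimage_le (fun a : s => (⟨p • a.1, hu a.1 a.2⟩ : u)) fun b => ?_
  rcases isEmpty_or_nonempty ((fun a : s => (⟨p • a.1, hu a.1 a.2⟩ : u)) ⁻¹' {b}) with h | ⟨⟨a₀, h₀⟩⟩
  · simp
  · refine mk_le_of_injective (f := fun a => ⟨a.1.1 - a₀.1, hs _ a.1.2 _ a₀.2
      (congrArg Subtype.val ((Set.mem_singleton_iff.1 a.2).trans
        (Set.mem_singleton_iff.1 h₀).symm))⟩) fun a a' h => ?_
    exact Subtype.ext (Subtype.ext (sub_left_inj.1 (congrArg Subtype.val h)))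

lemma card_prime {M : Type} [AddCommGroup M] {d p : ℕ} (hp : p.Prime) (hd : d ≠ 0)
    (h : ∀ q, 2 ≤ q → q ∣ d * p → Cl q M) : #(mulSet d M) ≤ max #(mulSet (d * p) M) ℵ₀ := by
  have key : ∀ x : M, p • d • x = 0 → d • x ∈ mulSet (d * p) M := by
    intro x hx
    obtain ⟨k, d', hd', rfl⟩ := WfDvdMonoid.max_power_factor' hd hp.prime.not_isUnit
    obtain ⟨c, hc, y, hy⟩ := h (p ^ (k + 1)) (hp.two_le.trans (Nat.le_self_pow (by omega) p))
      ⟨d', by ring⟩ (d' • x) (by rw [← hx, smul_smul, smul_smul]; congr 1; ring)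
    have hc0 : c ≠ 0 := fun h0 => hc (by simp [h0])
    have hp' : Prime (p : ℤ) := Nat.prime_iff_prime_int.1 hp
    obtain ⟨j, u, hu, rfl⟩ := WfDvdMonoid.max_power_factor' hc0 hp'.not_isUnit
    have hjk : j ≤ k := by
      by_contra hjk
      exact hc (by push_cast; exact (pow_dvd_pow _ (by omega)).mul_right _)
    obtain ⟨i, rfl⟩ := Nat.exists_eq_add_of_le hjk
    have hcop : IsCoprime (p : ℤ) (u * d') := by
      refine (hp'.coprime_iff_not_dvd).2 fun h => (hp'.dvd_or_dvd h).elim hu fun h => hd' ?_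
      exact_mod_cast h
    obtain ⟨a, b, hab⟩ := hcop
    refine ⟨(b * p ^ i) • y, ?_⟩
    simp only [← natCast_zsmul, smul_smul] at hx hy ⊢
    push_cast at hx hy ⊢
    have h1 : ((p : ℤ) ^ (j + i) * d') • x = (a * (p * (p ^ (j + i) * d'))) • x +
        (b * d' * p ^ i * (p ^ j * u * d')) • x := by
      rw [← add_smul]; congr 1
      linear_combination (-(p : ℤ) ^ (j + i) * d') * hab
    rw [h1, mul_smul a, hx, smul_zero, zero_add, mul_smul (b * d' * p ^ i), hy, smul_smul]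
    congr 1; ring
  refine (card_fib (mulSet d M) (mulSet (d * p) M) (mulSet (d * p) M) p ?_ ?_).trans
    ((mul_le_max _ _).trans (by rw [max_self]))
  · rintro _ ⟨a, rfl⟩ _ ⟨b, rfl⟩ hab
    have := key (a - b) (by rw [smul_sub, smul_sub, hab, sub_self])
    rwa [smul_sub] at this
  · rintro _ ⟨a, rfl⟩
    exact ⟨a, by simp only [smul_smul, mul_comm]⟩

lemma card_clean {M : Type} [AddCommGroup M] {m : ℕ} (hm : m ≠ 0)
    (h : ∀ q, 2 ≤ q → q ∣ m → Cl q M) : #M ≤ max #(mulSet m M) ℵ₀ := by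
  have key : ∀ e d : ℕ, d * e ∣ m → #(mulSet d M) ≤ max #(mulSet (d * e) M) ℵ₀ := by
    intro e
    induction e using Nat.recOnMul with
    | zero => intro d hd; simp [hm] at hd
    | one => intro d _; simp
    | prime p hp =>
      intro d hd
      exact card_prime hp (fun h0 => hm (by simpa [h0] using hd)) fun q h1 h2 => h q h1 (h2.trans hd)
    | mul a b ha hb =>
      intro d hd
      rw [← mul_assoc] at hd ⊢
      exact (ha d ((dvd_mul_right _ _).trans hd)).trans (max_le (hb _ hd) (le_max_right _ _))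
  have := key m 1 (by simp)
  rw [one_mul] at this
  refine le_trans (le_of_eq ?_) this
  simp [mulSet]

end Pool.Agent.H292Z.MGrp
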