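import Mathlib

set_option autoImplicit false

/-! The notions of the problem on abelian M-groups (written additively). -/

namespace Pool.Agent.H292Z.MGrp

/-- `X` is closed in every Hausdorff group topology on `G`. -/
def UncondClosed {G : Type} [AddCommGroup G] (X : Set G) : Prop :=
  ∀ τ : TopologicalSpace G, @IsTopologicalAddGroup G τ _ → @T2Space G τ → @IsClosed G τ X

/-- Every proper unconditionally closed subgroup has index at least the continuum. -/
def IsMGroup (G : Type) [AddCommGroup G] : Prop :=
  ∀ H : AddSubgroup G, H ≠ ⊤ → UncondClosed (H : Set G) →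
    Cardinal.continuum ≤ Cardinal.mk (G ⧸ H)

/-- Every point has arbitrarily small open neighbourhoods `V` whose closure is pathwise
connected. -/
def LocallyPathwiseConnected (X : Type) [TopologicalSpace X] : Prop :=
  ∀ (x : X) (U : Set X), IsOpen U → x ∈ U →
    ∃ V : Set X, IsOpen V ∧ x ∈ V ∧ closure V ⊆ U ∧ IsPathConnected (closure V)

end Pool.Agent.H292Z.MGrp
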