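import Pool.Agent.H292Z.MGrp.Path

set_option autoImplicit false

/-! The Hartman–Mycielski group of step functions with values in a normed group. -/

namespace Pool.Agent.H292Z.MGrp

open Filter Topology MeasureTheory

/-- break points of step functions -/
abbrev R : Type := Set.Ioc (0 : ℝ) 1

variable {A : Type} [AddCommGroup A]

/-- the value at `t` of the step function `∑ f r • 1_[0, r)` -/
noncomputable def step (t : ℝ) : (R →₀ A) →+ A :=
  Finsupp.liftAddHom fun r : R => if t < r.1 then AddMonoidHom.id A else 0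

lemma step_single (t : ℝ) (r : R) (a : A) :
    step t (Finsupp.single r a) = if t < r.1 then a else 0 := by
  simp only [step, Finsupp.liftAddHom_apply_single]
  split_ifs <;> rfl

lemma step_meas (f : R →₀ A) : ∀ φ : A → ℝ, Measurable fun t => φ (step t f) := by
  induction f using Finsupp.induction with
  | zero => intro φ; simp
  | single_add r a f _ _ ih =>
    intro φ
    have : (fun t => φ (step t (Finsupp.single r a + f))) =
        fun t => if t < r.1 then φ (a + step t f) else φ (step t f) := by
      funext t; rw [map_add, step_single]; split_ifs <;> simp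
    rw [this]
    exact Measurable.ite measurableSet_Iio (ih fun b => φ (a + b)) (ih φ)

lemma step_bdd (ρ : AddGroupNorm A) (f : R →₀ A) : ∃ K, 0 ≤ K ∧ ∀ t, ρ (step t f) ≤ K := by
  induction f using Finsupp.induction_linear with
  | zero => exact ⟨0, le_rfl, by simp⟩
  | add f g hf hg =>
    obtain ⟨K, hK, h⟩ := hf
    obtain ⟨L, hL, h'⟩ := hg
    exact ⟨K + L, by positivity, fun t => by
      rw [map_add]; exact (map_add_le_add ρ _ _).trans (add_le_add (h t) (h' t))⟩
  | single r a =>
    refine ⟨ρ a, apply_nonneg ρ a, fun t => ?_⟩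
    rw [step_single]; split_ifs <;> simp

lemma step_int (ρ : AddGroupNorm A) (f : R →₀ A) :
    IntegrableOn (fun t => ρ (step t f)) (Set.Ioo 0 1) := by
  obtain ⟨K, -, h⟩ := step_bdd ρ f
  exact Measure.integrableOn_of_bounded (M := K) (by simp) (step_meas f ρ).aestronglyMeasurable
    (Eventually.of_forall fun t => by rw [Real.norm_of_nonneg (apply_nonneg ρ _)]; exact h t)

/-- the `L¹` norm of a step function -/
noncomputable def hmNorm (ρ : AddGroupNorm A) : AddGroupNorm (R →₀ A) where
  toFun f := ∫ t in Set.Ioo 0 1, ρ (step t f)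
  map_zero' := by simp
  add_le' f g := by
    rw [← integral_add (step_int ρ f) (step_int ρ g)]
    refine integral_mono (step_int ρ _) ((step_int ρ f).add (step_int ρ g)) fun t => ?_
    simp only [map_add]; exact map_add_le_add ρ _ _
  neg' f := by simp
  eq_zero_of_map_eq_zero' f hf := by
    classical
    by_contra h0
    have hne : f.support.Nonempty := Finsupp.support_nonempty_iff.2 h0
    set r := f.support.max' hne
    have hr : r ∈ f.support := f.support.max'_mem hne
    have h1 : ∀ᶠ t in 𝓝[<] r.1, 0 < t ∧ ∀ s ∈ f.support, s ≠ r → s.1 < t := by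
      refine Eventually.and (mem_nhdsWithin_of_mem_nhds (Ioi_mem_nhds r.2.1))
        ((eventually_all_finset _).2 fun s hs => ?_)
      by_cases hsr : s = r
      · exact Eventually.of_forall fun _ h => absurd hsr h
      · have : s.1 < r.1 := lt_of_le_of_ne (f.support.le_max' s hs) fun h => hsr (Subtype.ext h)
        filter_upwards [mem_nhdsWithin_of_mem_nhds (Ioi_mem_nhds this)] with t ht _ using ht
    obtain ⟨l, hl, hsub⟩ := mem_nhdsLT_iff_exists_Ioo_subset.1 h1
    have h2 := (setIntegral_eq_zero_iff_of_nonneg_ae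
      (Eventually.of_forall fun t => apply_nonneg ρ _) (step_int ρ f)).1 hf
    have h3 : Set.Ioo l r.1 ⊆ Set.Ioo 0 1 := fun t ht => ⟨(hsub ht).1, ht.2.trans_le r.2.2⟩
    obtain ⟨t, ht, h4⟩ := Measure.exists_mem_of_measure_ne_zero_of_ae (μ := volume)
      (s := Set.Ioo l r.1) (by simpa using hl) (ae_restrict_of_ae_restrict_of_subset h3 h2)
    have h5 : step t f = f r := by
      conv_lhs => rw [← f.sum_single, Finsupp.sum, map_sum]
      rw [Finset.sum_eq_single_of_mem r hr, step_single, if_pos ht.2]
      intro s hs hsr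
      rw [step_single, if_neg (not_lt.2 ((hsub ht).2 s hs hsr).le)]
    have h6 : ρ (step t f) = 0 := h4
    rw [h5] at h6
    exact Finsupp.mem_support_iff.1 hr (eq_zero_of_map_eq_zero ρ h6)

lemma hmNorm_apply (ρ : AddGroupNorm A) (f : R →₀ A) :
    hmNorm ρ f = ∫ t in Set.Ioo 0 1, ρ (step t f) := rfl

/-- truncation at level `s` -/
noncomputable def trunc (s : ℝ) : (R →₀ A) →+ (R →₀ A) :=
  if h : 0 < s then Finsupp.mapDomain.addMonoidHom
    fun r : R => (⟨min r.1 s, lt_min r.2.1 h, (min_le_left _ _).trans r.2.2⟩ : R) else 0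

lemma step_trunc {t : ℝ} (ht : 0 < t) (s : ℝ) (f : R →₀ A) :
    step t (trunc s f) = if t < s then step t f else 0 := by
  induction f using Finsupp.induction_linear with
  | zero => simp
  | add f g hf hg => rw [map_add, map_add, map_add, hf, hg]; split_ifs <;> simp
  | single r a =>
    unfold trunc
    by_cases h : 0 < s
    · rw [dif_pos h, Finsupp.mapDomain.addMonoidHom_apply, Finsupp.mapDomain_single, step_single,
        step_single]
      by_cases h1 : t < s <;> simp [h1]
    · rw [dif_neg h, if_neg (by linarith)]; simp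

lemma hm_single (ρ : AddGroupNorm A) (r : R) (a : A) : hmNorm ρ (Finsupp.single r a) ≤ ρ a := by
  rw [hmNorm_apply]
  refine (setIntegral_mono_on (step_int ρ _) (integrableOn_const (by simp)) measurableSet_Ioo
    (g := fun _ => ρ a) fun t _ => ?_).trans (by simp)
  rw [step_single]; split_ifs <;> simp

lemma hm_lip (ρ : AddGroupNorm A) (f : R →₀ A) {K : ℝ} (hK : 0 ≤ K) (h : ∀ t, ρ (step t f) ≤ K)
    {s s' : ℝ} (hs : s ≤ s') : hmNorm ρ (trunc s' f - trunc s f) ≤ K * (s' - s) := by
  rw [hmNorm_apply]
  have hi : Integrable ((Set.Ico s s').indicator fun _ : ℝ => K) :=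
    (integrable_indicator_iff measurableSet_Ico).2 (integrableOn_const (by simp))
  refine (setIntegral_mono_on (step_int ρ _) hi.integrableOn measurableSet_Ioo fun t ht => ?_).trans
    ((setIntegral_le_integral hi (Eventually.of_forall fun t =>
      Set.indicator_nonneg (fun _ _ => hK) t)).trans (le_of_eq ?_))
  · rw [map_sub, step_trunc ht.1, step_trunc ht.1]
    by_cases h1 : t < s
    · rw [if_pos h1, if_pos (h1.trans_le hs), sub_self, map_zero]
      exact Set.indicator_nonneg (fun _ _ => hK) t
    · by_cases h2 : t < s'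
      · rw [if_neg h1, if_pos h2, sub_zero, Set.indicator_of_mem (show t ∈ Set.Ico s s' from
          ⟨not_lt.1 h1, h2⟩)]
        exact h t
      · rw [if_neg h1, if_neg h2, sub_self, map_zero]
        exact Set.indicator_nonneg (fun _ _ => hK) t
  · rw [integral_indicator_const _ measurableSet_Ico, Real.volume_real_Ico_of_le hs, smul_eq_mul,
      mul_comm]

/-- a group squeezed between the step functions with values in `C` and those with values in the
closure of `C` -/
theorem PC.hm {G : Type} [AddCommGroup G] (ρ : AddGroupNorm A) (C : AddSubgroup A)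
    (π : G →+ (R →₀ A)) (hπ : Function.Injective π)
    (hC : ∀ f : R →₀ A, (∀ r, f r ∈ C) → f ∈ π.range)
    (hd : ∀ g r, ∀ ε > 0, ∃ c ∈ C, ρ (c - π g r) < ε) : PC G := by
  classical
  refine PC.pull π hπ (hmNorm ρ) fun g hg => ?_
  let I : NormedAddCommGroup (R →₀ A) := (hmNorm ρ).toNormedAddCommGroup
  have hn : ∀ f : R →₀ A, ‖f‖ = hmNorm ρ f := fun _ => rfl
  let H : AddSubgroup (R →₀ A) :=
    { carrier := {f | ∀ r, f r ∈ C}
      zero_mem' := fun _ => C.zero_mem
      add_mem' := fun ha hb r => C.add_mem (ha r) (hb r)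
      neg_mem' := fun ha r => C.neg_mem (ha r) }
  have hsing : ∀ r, ∀ c ∈ C, Finsupp.single r c ∈ H := fun r c hc s => by
    rw [Finsupp.single_apply]; split_ifs
    · exact hc
    · exact C.zero_mem
  suffices key : ∃ γ : ℝ → (R →₀ A), Continuous γ ∧ γ 0 = 0 ∧ (∀ t, 1 ≤ t → γ t = π g) ∧
      ∀ t, t < 1 → γ t ∈ H ∧ ‖γ t‖ < ‖π g‖ by
    obtain ⟨γ, h1, h2, h3, h4⟩ := key
    refine ⟨γ, fun t => ?_, h2, h3 1 le_rfl, fun t ht => (h4 t ht).2, fun s =>
      tendsto_iff_norm_sub_tendsto_zero.1 (h1.tendsto s)⟩
    rcases lt_or_ge t 1 with ht | ht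
    · exact hC _ (h4 t ht).1
    · exact ⟨g, (h3 t ht).symm⟩
  refine exists_path H trunc (fun s f hf => ?_) (fun s hs f => ?_)
    (fun s hs f => ?_) (fun f => ?_) (fun s f => ?_) (fun f s s' hs => ?_)
    (fun h => hg (hπ (by rw [h, map_zero]))) (fun ε hε => ?_)
  · unfold trunc
    split_ifs
    · rw [Finsupp.mapDomain.addMonoidHom_apply, Finsupp.mapDomain]
      exact H.sum_mem fun r _ => hsing _ _ (hf r)
    · exact H.zero_mem
  · unfold trunc
    rw [dif_neg (not_lt.2 hs)]; rfl
  · unfold trunc
    rw [dif_pos (by linarith), Finsupp.mapDomain.addMonoidHom_apply]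
    refine Eq.trans ?_ Finsupp.mapDomain_id
    congr 1
    funext r
    exact Subtype.ext (min_eq_left (r.2.2.trans hs))
  · obtain ⟨K, hK, h⟩ := step_bdd ρ f
    refine (LipschitzWith.of_dist_le_mul (K := ⟨K, hK⟩) fun s s' => ?_).continuous
    rw [dist_eq_norm, Real.dist_eq]
    rcases le_total s s' with hs | hs
    · rw [norm_sub_rev, abs_sub_comm, abs_of_nonneg (sub_nonneg.2 hs)]
      exact hm_lip ρ f hK h hs
    · rw [abs_of_nonneg (sub_nonneg.2 hs)]
      exact hm_lip ρ f hK h hs
  · rw [hn, hn, hn, hmNorm_apply, hmNorm_apply, hmNorm_apply,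
      ← integral_add (step_int ρ _) (step_int ρ _)]
    refine setIntegral_congr_fun measurableSet_Ioo fun t ht => ?_
    simp only [map_sub, step_trunc ht.1]
    split_ifs <;> simp
  · simp only [hn, hmNorm_apply]
    refine setIntegral_mono_on (step_int ρ _) (step_int ρ _) measurableSet_Ioo fun t ht => ?_
    rw [step_trunc ht.1, step_trunc ht.1]
    by_cases h : t < s
    · rw [if_pos h, if_pos (h.trans_le hs)]
    · rw [if_neg h, map_zero]; exact apply_nonneg ρ _
  · have : π g ∈ H.topologicalClosure := by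
      rw [← (π g).sum_single]
      refine AddSubgroup.sum_mem _ fun r _ => Metric.mem_closure_iff.2 fun δ hδ => ?_
      obtain ⟨c, hc, h⟩ := hd g r δ hδ
      refine ⟨_, hsing r c hc, ?_⟩
      rw [dist_comm, dist_eq_norm, ← Finsupp.single_sub]
      exact (hm_single ρ _ _).trans_lt h
    obtain ⟨h, hh, h'⟩ := Metric.mem_closure_iff.1 this ε hε
    exact ⟨h, hh, by rwa [dist_comm, dist_eq_norm] at h'⟩

end Pool.Agent.H292Z.MGrp
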