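import Pool.Agent.H292Z.MGrp.Dec

set_option autoImplicit false

/-! Abelian groups whose nonzero multiples are all large carry a path norm. -/

namespace Pool.Agent.H292Z.MGrp

open Cardinal

lemma card_ess {Q : Type} [AddCommGroup Q] (S : AddSubgroup Q)
    (h : ∀ x : Q, x ≠ 0 → ∃ k : ℤ, k • x ∈ S ∧ k • x ≠ 0) : #Q ≤ max #S ℵ₀ := by
  have h1 : ∀ n : ℕ, n ≠ 0 → #{x : Q | n • x ∈ S} ≤ max #S ℵ₀ := by
    intro n
    induction n using induction_on_primes with
    | zero => simp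
    | one => intro _; simp
    | prime_mul p a hp ha =>
      intro h0
      have hp' : Prime (p : ℤ) := Nat.prime_iff_prime_int.1 hp
      refine (card_fib _ (S : Set Q) {x : Q | a • x ∈ S} p (fun x _ y _ hxy => ?_)
        fun x hx => ?_).trans ((mul_le_max _ _).trans (max_le (max_le
          (ha fun h => h0 (by simp [h])) (le_max_left _ _)) (le_max_right _ _)))
      · by_cases h2 : x - y = 0
        · rw [h2]; exact S.zero_mem
        obtain ⟨k, hk, hk0⟩ := h _ h2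
        have h3 : (p : ℤ) • (x - y) = 0 := by rw [natCast_zsmul, smul_sub, hxy, sub_self]
        obtain ⟨u, v, huv⟩ := hp'.coprime_iff_not_dvd.2 (show ¬ (p : ℤ) ∣ k by
          rintro ⟨c, rfl⟩
          exact hk0 (by rw [mul_comm, mul_smul, h3, smul_zero]))
        have : x - y = v • k • (x - y) := by
          conv_lhs => rw [← one_smul ℤ (x - y), ← huv, add_smul, mul_smul, h3, smul_zero,
            zero_add, mul_smul]
        rw [this]
        exact S.zsmul_mem hk v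
      · change a • p • x ∈ S
        rw [smul_smul, mul_comm]; exact hx
  have h2 : (Set.univ : Set Q) ⊆ ⋃ n : ℕ, {x : Q | (n + 1) • x ∈ S} := fun x _ => by
    by_cases hx : x = 0
    · exact Set.mem_iUnion.2 ⟨0, by simp [hx]⟩
    obtain ⟨k, hk, hk0⟩ := h x hx
    obtain ⟨n, hn⟩ := Nat.exists_eq_succ_of_ne_zero
      (Int.natAbs_ne_zero.2 fun h : k = 0 => hk0 (by simp [h]))
    refine Set.mem_iUnion.2 ⟨n, ?_⟩
    change (n + 1) • x ∈ S
    rw [← Nat.succ_eq_add_one, ← hn, ← natCast_zsmul, Int.natCast_natAbs]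
    rcases abs_choice k with h | h <;> rw [h]
    · exact hk
    · rw [neg_smul]; exact S.neg_mem hk
  rw [← mk_univ]
  refine (mk_le_mk_of_subset h2).trans (mk_iUnion_le_sum_mk.trans
    ((sum_le_sum _ _ fun n => h1 _ n.succ_ne_zero).trans ?_))
  rw [sum_const', mk_nat, aleph0_mul_eq (le_max_right _ _)]

lemma mulSet_le {A B : Type} [AddCommGroup A] [AddCommGroup B] (φ : A →+ B) (d : ℕ)
    (h : ∀ x, φ (d • x) = 0 → d • x = 0) : #(mulSet d A) ≤ #(mulSet d B) := by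
  refine mk_le_of_injective (f := fun a => ⟨φ a.1, by
    obtain ⟨_, x, rfl⟩ := a
    exact ⟨φ x, (map_nsmul _ _ _).symm⟩⟩) ?_
  rintro ⟨_, x, rfl⟩ ⟨_, y, rfl⟩ hxy
  have h1 : φ (d • x) = φ (d • y) := congrArg Subtype.val hxy
  have := h (x - y) (by rw [smul_sub, map_sub, h1, sub_self])
  exact Subtype.ext (by rwa [smul_sub, sub_eq_zero] at this)

lemma mulSet_mul {A : Type} [AddCommGroup A] (k d : ℕ) : #(mulSet (k * d) A) ≤ #(mulSet k A) :=
  mk_le_mk_of_subset (by rintro _ ⟨x, rfl⟩; exact ⟨d • x, smul_smul _ _ _⟩)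

lemma rstep {L : Type} [AddCommGroup L] (S : AddSubgroup L) (m : ℕ)
    (hS : max #S ℵ₀ < #(mulSet m.factorial L)) :
    ∃ x : L, (addOrderOf x = 0 ∨ m < addOrderOf x) ∧ ∀ k : ℤ, k • x ∈ S → k • x = 0 := by
  by_contra hc
  have h1 : ∀ x : L, (∀ k : ℤ, k • x ∈ S → k • x = 0) → m.factorial • x = 0 := fun x hx => by
    by_contra h0
    refine hc ⟨x, ?_, hx⟩
    by_contra h2
    rw [not_or, not_lt] at h2
    exact h0 (addOrderOf_dvd_iff_nsmul_eq_zero.1 (Nat.dvd_factorial (Nat.pos_of_ne_zero h2.1) h2.2))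
  obtain ⟨W, -, hW⟩ := zorn_le_nonempty₀ {W : AddSubgroup L | ∀ x ∈ W, x ∈ S → x = 0}
    (fun c hc hchain y hy => ⟨sSup c, fun x hx => by
      obtain ⟨W, h2, h3⟩ := (AddSubgroup.mem_sSup_of_directedOn ⟨y, hy⟩ hchain.directedOn).1 hx
      exact hc h2 x h3, fun z hz => le_sSup hz⟩) ⊥ (fun x hx _ => hx)
  have h2 := card_ess (S.map (QuotientAddGroup.mk' W)) fun q hq => by
    obtain ⟨x, rfl⟩ := QuotientAddGroup.mk_surjective q
    by_contra h3
    refine hq ((QuotientAddGroup.eq_zero_iff _).2 (hW.le_of_ge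
      (y := W ⊔ AddSubgroup.zmultiples x) (fun z hz hzS => ?_) le_sup_left
      (AddSubgroup.mem_sup_right (AddSubgroup.mem_zmultiples x))))
    obtain ⟨w, hw, _, ⟨k, rfl⟩, rfl⟩ := AddSubgroup.mem_sup.1 hz
    have h4 : (QuotientAddGroup.mk (w + k • x) : L ⧸ W) = k • QuotientAddGroup.mk x := by
      rw [QuotientAddGroup.mk_add, (QuotientAddGroup.eq_zero_iff _).2 hw, zero_add,
        QuotientAddGroup.mk_zsmul]
    by_contra h5
    refine h3 ⟨k, ⟨_, hzS, h4⟩, fun h6 => h5 (hW.prop _ ?_ hzS)⟩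
    exact (QuotientAddGroup.eq_zero_iff _).1 (h4.trans h6)
  have h3 : #(mulSet m.factorial L) ≤ #(L ⧸ W) := by
    refine le_trans (mk_le_mk_of_subset ?_) (mk_range_le (f := QuotientAddGroup.lift W
      (nsmulAddMonoidHom m.factorial : L →+ L) fun x hx =>
        h1 x fun k hk => hW.prop _ (W.zsmul_mem hx k) hk))
    rintro _ ⟨x, rfl⟩
    exact ⟨QuotientAddGroup.mk x, rfl⟩
  exact absurd (h3.trans (h2.trans (max_le_max mk_image_le le_rfl))) hS.not_ge

lemma exists_rec {I L : Type} [LinearOrder I] [WellFoundedLT I]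
    (P : (i : I) → (Set.Iio i → L) → L → Prop) (h : ∀ i f, ∃ x, P i f x) :
    ∃ y : I → L, ∀ i, P i (fun j => y j) (y i) := by
  choose g hg using h
  let y : I → L := (wellFounded_lt (α := I)).fix fun i f => g i fun j => f j j.2
  refine ⟨y, fun i => ?_⟩
  have : y i = g i fun j => y j := WellFounded.fix_eq _ _ _
  exact this ▸ hg _ _

lemma exists_indep {L I : Type} [AddCommGroup L] (lev : I → ℕ) (h0 : ℵ₀ < #I)
    (h : ∀ k, k ≠ 0 → #I ≤ #(mulSet k L)) :
    ∃ y : I → L, (∀ i, addOrderOf (y i) = 0 ∨ lev i < addOrderOf (y i)) ∧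
      ∀ k, comb y k = 0 → ∀ i, k i • y i = 0 := by
  classical
  obtain ⟨_, _, hI⟩ := exists_ord_eq_type_lt I
  obtain ⟨y, hy⟩ := exists_rec (I := I) (L := L) (fun i f x =>
    (addOrderOf x = 0 ∨ lev i < addOrderOf x) ∧ ∀ k : ℤ, k • x ∈ (comb f).range → k • x = 0)
    fun i f => rstep _ _ (((max_le (card_comb f) (le_max_right _ _)).trans_lt
      (max_lt (mk_Iio_lt i hI) h0)).trans_le (h _ (Nat.factorial_ne_zero _)))
  refine ⟨y, fun i => (hy i).1, fun k hk i => ?_⟩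
  by_contra hi
  obtain ⟨j, hj, hmax⟩ := Finset.exists_max_image (k.support.filter fun i => k i • y i ≠ 0) id
    ⟨i, Finset.mem_filter.2 ⟨Finsupp.mem_support_iff.2 fun h => hi (by simp [h]), hi⟩⟩
  obtain ⟨hj1, hj2⟩ := Finset.mem_filter.1 hj
  refine hj2 ((hy j).2 _ ?_)
  rw [comb_apply, Finsupp.sum, ← Finset.add_sum_erase _ _ hj1] at hk
  rw [eq_neg_of_add_eq_zero_left hk]
  refine AddSubgroup.neg_mem _ (AddSubgroup.sum_mem _ fun l hl => ?_)
  obtain ⟨hl1, hl2⟩ := Finset.mem_erase.1 hl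
  by_cases h1 : k l • y l = 0
  · rw [h1]; exact AddSubgroup.zero_mem _
  · exact ⟨Finsupp.single ⟨l, lt_of_le_of_ne (hmax l (Finset.mem_filter.2 ⟨hl2, h1⟩)) hl1⟩ (k l),
      comb_single _ _ _⟩

lemma regroup {Λ : Type} (h : 𝔠 ≤ #Λ) (f : Λ → ℕ) :
    ∃ (β : R × Λ → Λ) (g : Λ → Λ), Function.Injective β ∧ ∀ r α, f (β (r, α)) = f (g α) := by
  classical
  have h0 : ℵ₀ ≤ #Λ := aleph0_le_continuum.trans h
  have : Infinite Λ := infinite_iff.2 h0
  let V : Set Λ := ⋃ o : ℕ, {α | f α = o ∧ #{α | f α = o} < 𝔠}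
  have hV : #V < 𝔠 := by
    refine mk_iUnion_le_sum_mk.trans_lt ((sum_lt_prod _ (fun _ => 𝔠) fun o => ?_).trans_eq ?_)
    · by_cases h1 : #{α | f α = o} < 𝔠
      · exact (mk_le_mk_of_subset fun α hα => hα.1).trans_lt h1
      · simpa [h1] using continuum_pos
    · rw [prod_const', mk_nat, continuum_power_aleph0]
  obtain ⟨j⟩ := (Cardinal.le_def _ _).1 (mk_compl_of_infinite V (hV.trans_le h)).ge
  have hb : ∀ o : ℕ, ∃ b : R × Λ → Λ, 𝔠 ≤ #{α | f α = o} →
      (∀ r α, f α = o → f (b (r, α)) = o) ∧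
      ∀ r α r' α', f α = o → f α' = o → b (r, α) = b (r', α') → r = r' ∧ α = α' := fun o => by
    by_cases h1 : 𝔠 ≤ #{α | f α = o}
    · obtain ⟨b⟩ := exists_emb h1
      refine ⟨fun p => if h : f p.2 = o then b (p.1, ⟨p.2, h⟩, 0) else p.2, fun _ =>
        ⟨fun r α hα => ?_, fun r α r' α' hα hα' h2 => ?_⟩⟩
      · simp only [hα, dif_pos]; exact (b _).2
      · simp only [hα, hα', dif_pos] at h2
        simpa using b.injective (Subtype.ext h2)
    · exact ⟨Prod.snd, fun h => absurd h h1⟩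
  choose b hb using hb
  have hj : ∀ α, 𝔠 ≤ #{α' | f α' = f (j α)} := fun α =>
    not_lt.1 fun h1 => (j α).2 (Set.mem_iUnion.2 ⟨_, rfl, h1⟩)
  have h1 : ∀ r α, f (b (f (j α)) (r, j α)) = f (j α) := fun r α => (hb _ (hj α)).1 r _ rfl
  refine ⟨fun p => b (f (j p.2)) (p.1, j p.2), fun α => j α, ?_, h1⟩
  rintro ⟨r, α⟩ ⟨r', α'⟩ h2
  have h3 : b (f (j α)) (r, j α) = b (f (j α')) (r', j α') := h2
  have h4 : f (j α') = f (j α) := by rw [← h1 r α, h3, h1]
  rw [h4] at h3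
  obtain ⟨h5, h6⟩ := (hb _ (hj α)).2 r _ r' _ rfl h4 h3
  exact Prod.ext h5 (j.injective (Subtype.ext h6))

lemma exists_theta' : ∃ θ : ℕ → T, (∀ o, addOrderOf (θ o) = o) ∧
    ∀ (t : T), ∀ ε > 0, ∃ M, ∀ o, o = 0 ∨ M < o → ∃ c : ℤ, ‖c • θ o - t‖ < ε := by
  obtain ⟨θ, hθ⟩ := exists_theta 0
  refine ⟨fun o => if o = 0 then θ else th o, fun o => ?_, fun t ε hε => ?_⟩
  · by_cases h : o = 0
    · simp [h, hθ]
    · simp only [h, if_false]
      exact AddCircle.addOrderOf_period_div (Nat.pos_of_ne_zero h)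
  · obtain ⟨M, hM⟩ := exists_nat_one_div_lt hε
    refine ⟨M, fun o ho => ?_⟩
    by_cases h : o = 0
    · obtain ⟨c, hc⟩ := (AddCircle.denseRange_zsmul_iff.2 hθ).exists_dist_lt t hε
      exact ⟨c, by simpa [h, dist_eq_norm'] using hc⟩
    · obtain ⟨x, rfl⟩ := QuotientAddGroup.mk_surjective t
      have h1 : (M : ℝ) + 1 ≤ o := by exact_mod_cast ho.resolve_left h
      have h2 : (0 : ℝ) < o := by exact_mod_cast Nat.pos_of_ne_zero h
      refine ⟨round (x * o), ?_⟩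
      simp only [h, if_false, th]
      rw [← AddCircle.coe_zsmul, ← AddCircle.coe_sub, UnitAddCircle.norm_eq]
      refine (round_le _ 0).trans_lt (lt_of_le_of_lt ?_ hM)
      have h3 : round (x * o) • ((1 : ℝ) / o) - x - ((0 : ℤ) : ℝ) = -(x * o - round (x * o)) / o := by
        simp only [zsmul_eq_mul]; field_simp; push_cast; ring
      rw [h3, abs_div, abs_neg, abs_of_pos h2]
      exact (div_le_div_of_nonneg_right ((abs_sub_round _).trans (by norm_num)) h2.le).trans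
        (one_div_le_one_div_of_le (by positivity) h1)

lemma PC.wdiv {L : Type} [AddCommGroup L] (h0 : 𝔠 ≤ #L) (h : ∀ k, k ≠ 0 → #L ≤ #(mulSet k L)) :
    PC L := by
  have h1 : #(L × ℕ) = #L := by
    rw [mk_prod, lift_id, lift_id, mk_nat, mul_aleph0_eq (aleph0_le_continuum.trans h0)]
  obtain ⟨y, hy, hind⟩ := exists_indep (L := L) (Prod.snd : L × ℕ → ℕ)
    (h1 ▸ aleph0_lt_continuum.trans_le h0) (h1 ▸ h)
  choose β g hβ hg using fun m => regroup h0 fun α => addOrderOf (y (α, m))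
  obtain ⟨θ, hθ, hd⟩ := exists_theta'
  let B : R × L × ℕ → L × ℕ := fun i => (β i.2.2 (i.1, i.2.1), i.2.2)
  have hB : Function.Injective B := by
    rintro ⟨r, α, m⟩ ⟨r', α', m'⟩ h2
    obtain rfl : m = m' := congrArg Prod.snd h2
    obtain ⟨rfl, rfl⟩ := Prod.ext_iff.1 (hβ m (congrArg Prod.fst h2))
    rfl
  refine PC.embed (Function.Embedding.refl L) 0 (by simp) (fun i => y (B i))
    (fun p => θ (addOrderOf (y (g p.2 p.1, p.2)))) (fun k hk i => ?_) (fun i c => ?_)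
    fun α t _ ε hε => ?_
  · have := hind (k.mapDomain B) (by rw [comb_mapDomain]; exact hk) (B i)
    rwa [Finsupp.mapDomain_apply hB] at this
  · rw [← addOrderOf_dvd_iff_zsmul_eq_zero, ← addOrderOf_dvd_iff_zsmul_eq_zero, hθ, hg]
  · obtain ⟨M, hM⟩ := hd t ε hε
    exact ⟨M, fun m hm => hM _ ((hy (g m α, m)).imp_right fun h => lt_of_le_of_lt hm h)⟩

lemma PC.infinite {G : Type} [AddCommGroup G] (h : ∀ m, m ≠ 0 → 𝔠 ≤ #(mulSet m G)) : PC G := by
  obtain ⟨⟨m, hm⟩, hmin⟩ := exists_minimalFor_of_wellFoundedLT (fun _ : {m : ℕ // m ≠ 0} => True)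
    (fun m => #(mulSet m.1 G)) ⟨⟨1, one_ne_zero⟩, trivial⟩
  have h1 : ∀ k, k ≠ 0 → #(mulSet m G) ≤ #(mulSet k G) := fun k hk =>
    not_lt.1 fun h2 => hmin.not_prop_of_lt (j := ⟨k, hk⟩) h2 trivial
  obtain ⟨S, M, B, _, _, _, ⟨e⟩, h2, h3, h4, h5⟩ := decomp (m.divisors.filter (2 ≤ ·)) m
    (fun q hq => ⟨(Finset.mem_filter.1 hq).2, Nat.dvd_of_mem_divisors (Finset.mem_filter.1 hq).1⟩) G
  have h6 : ∀ k, k ≠ 0 → #(mulSet m G) ≤ #(mulSet k (S × M)) := fun k hk => by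
    refine (h1 _ (mul_ne_zero hk hm)).trans ((mulSet_le ((AddMonoidHom.fst _ _).comp
      e.toAddMonoidHom) _ fun x hx => e.injective ?_).trans (mulSet_mul k m))
    refine Prod.ext (hx.trans (by simp)) ?_
    rw [map_nsmul, map_zero, Prod.smul_snd, mul_smul, h5, smul_zero]; rfl
  have h7 : #(S × M) ≤ #(mulSet m G) := by
    have h8 : ℵ₀ ≤ #(mulSet m G) := aleph0_le_continuum.trans (h m hm)
    rw [mk_prod, lift_id, lift_id]
    refine (mul_le_max _ _).trans (max_le (max_le (h3.trans (h m hm)) ((card_clean hm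
      fun q hq hq' => h2 q (Finset.mem_filter.2 ⟨Nat.mem_divisors.2 ⟨hq', hm⟩, hq⟩)).trans
      (max_le (mulSet_le (e.symm.toAddMonoidHom.comp ((AddMonoidHom.inl _ _).comp
        (AddMonoidHom.inr _ _))) _ fun x hx => ?_) h8))) h8)
    simpa using hx
  exact PC.equiv e (PC.prod (PC.wdiv ((h m hm).trans ((h6 1 one_ne_zero).trans (mk_set_le _)))
    fun k hk => h7.trans (h6 k hk)) h4)

lemma PC.finite {G : Type} [AddCommGroup G] (h0 : AddMonoid.ExponentExists G)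
    (h : ∀ m : ℕ, (∀ x : G, m • x = 0) ∨ 𝔠 ≤ #(mulSet m G)) : PC G := by
  have hn0 := h0.exponent_ne_zero
  have hn : ∀ x : G, AddMonoid.exponent G • x = 0 := AddMonoid.exponent_nsmul_eq_zero
  have hd : ∀ k, (∀ x : G, k • x = 0) → AddMonoid.exponent G ∣ k := fun k hk =>
    AddMonoid.exponent_dvd_of_forall_nsmul_eq_zero hk
  generalize AddMonoid.exponent G = n at hn0 hn hd
  by_cases h1 : n = 1
  · have h2 : ∀ x : G, x = 0 := fun x => by simpa [h1] using hn x
    exact PC.equiv ⟨⟨fun _ => (), fun _ => 0, fun x => (h2 x).symm, fun _ => rfl⟩, fun _ _ => rfl⟩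
      PC.unit
  obtain ⟨S, G', _, _, ⟨e⟩, ⟨hS, I, z, hz, hI⟩, hcl⟩ := split G (show 2 ≤ n by omega)
  have hn' : ∀ x : G', n • x = 0 := fun x => by
    have := congrArg (fun a => (e a).2) (hn (e.symm (0, x)))
    simpa using this
  obtain ⟨x, hx⟩ := AddMonoid.exists_addOrderOf_eq_exponent
    (⟨n, Nat.pos_of_ne_zero hn0, hn'⟩ : AddMonoid.ExponentExists G')
  have h2 : 𝔠 ≤ #I := by
    obtain ⟨c, hc, y, hy⟩ := hcl x (hn' x)
    rw [hn', ← addOrderOf_dvd_iff_zsmul_eq_zero, hx] at hy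
    have h3 := (h _).resolve_left fun h3 => hc ((Int.natCast_dvd_natCast.2 (hd _ h3)).trans hy)
    have h4 := h3.trans ((mulSet_le ((AddMonoidHom.fst _ _).comp e.toAddMonoidHom) _
      fun x hx => e.injective (Prod.ext (hx.trans (by simp)) (by
        rw [map_nsmul, map_zero, Prod.smul_snd, AddMonoid.exponent_nsmul_eq_zero]; rfl))).trans
      ((mk_set_le _).trans hI))
    exact (le_max_iff.1 h4).resolve_right aleph0_lt_continuum.not_ge
  obtain ⟨S', M, B, _, _, _, ⟨e'⟩, h3, h4, h5, -⟩ := decomp (n.divisors.filter (2 ≤ ·)) n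
    (fun q hq => ⟨(Finset.mem_filter.1 hq).2, Nat.dvd_of_mem_divisors (Finset.mem_filter.1 hq).1⟩) G'
  have hn'' : ∀ x : S' × M, n • x = 0 := fun x => by
    have := congrArg (fun a => (e' a).1) (hn' (e'.symm (x, 0)))
    simpa using this
  have h6 : #M ≤ 𝔠 := by
    refine (card_clean hn0 fun q hq hq' =>
      h3 q (Finset.mem_filter.2 ⟨Nat.mem_divisors.2 ⟨hq', hn0⟩, hq⟩)).trans
      (max_le ((mk_le_mk_of_subset (t := {0}) ?_).trans
        (mk_le_aleph0.trans aleph0_le_continuum)) aleph0_le_continuum)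
    rintro _ ⟨x, rfl⟩
    exact congrArg Prod.snd (hn'' (0, x))
  have h7 : ℵ₀ ≤ #I := aleph0_le_continuum.trans h2
  have h8 : PC (S × (S' × M)) := by
    refine PC.bounded (Nat.pos_of_ne_zero hn0) (fun x => Prod.ext (hS _) (hn'' _))
      (fun i => (z i, 0)) (fun k hk => hz k ?_) h2 ?_
    · have := congrArg (AddMonoidHom.fst _ _) hk
      rwa [map_comb] at this
    · simp only [mk_prod, lift_id]
      exact (mul_le_max _ _).trans (max_le (max_le (hI.trans (max_le le_rfl h7))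
        ((mul_le_max _ _).trans (max_le (max_le (h4.trans h2) (h6.trans h2)) h7))) h7)
  exact PC.equiv ((e.trans ((AddEquiv.refl S).prodCongr e')).trans AddEquiv.prodAssoc.symm)
    (h8.prod h5)

theorem PC.main {G : Type} [AddCommGroup G]
    (h : ∀ m : ℕ, (∀ x : G, m • x = 0) ∨ 𝔠 ≤ #(mulSet m G)) : PC G := by
  by_cases h0 : AddMonoid.ExponentExists G
  · exact PC.finite h0 h
  · exact PC.infinite fun m hm => (h m).resolve_left fun h1 => h0 ⟨m, Nat.pos_of_ne_zero hm, h1⟩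

end Pool.Agent.H292Z.MGrp
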