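import Mathlib

set_option autoImplicit false

/-! Normed groups in which every point is reached from `0` by a path of smaller norm. -/

namespace Pool.Agent.H292Z.MGrp

open Filter Topology Finset

/-- `G` carries a group norm in which every `x ≠ 0` is the end point of a path starting at `0`
whose earlier points have smaller norm. -/
def PC (G : Type) [AddCommGroup G] : Prop :=
  ∃ N : AddGroupNorm G, ∀ x : G, x ≠ 0 → ∃ γ : ℝ → G, γ 0 = 0 ∧ γ 1 = x ∧
    (∀ t, t < 1 → N (γ t) < N x) ∧ ∀ s, Tendsto (fun t => N (γ t - γ s)) (𝓝 s) (𝓝 0)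

lemma PC.pull {G X : Type} [AddCommGroup G] [AddCommGroup X] (π : G →+ X)
    (hπ : Function.Injective π) (N : AddGroupNorm X)
    (h : ∀ g : G, g ≠ 0 → ∃ γ : ℝ → X, (∀ t, γ t ∈ π.range) ∧ γ 0 = 0 ∧ γ 1 = π g ∧
      (∀ t, t < 1 → N (γ t) < N (π g)) ∧ ∀ s, Tendsto (fun t => N (γ t - γ s)) (𝓝 s) (𝓝 0)) :
    PC G := by
  refine ⟨⟨⟨fun g => N (π g), by simp, fun a b => by simpa using map_add_le_add N (π a) (π b),
    fun a => by simp⟩, fun a ha => hπ (by simpa using eq_zero_of_map_eq_zero N ha)⟩, fun g hg => ?_⟩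
  obtain ⟨γ, h1, h2, h3, h4, h5⟩ := h g hg
  choose δ hδ using h1
  refine ⟨δ, hπ (by rw [hδ, h2, map_zero]), hπ (by rw [hδ, h3]), fun t ht => ?_, fun s => ?_⟩
  · change N (π (δ t)) < N (π g)
    rw [hδ]; exact h4 t ht
  · change Tendsto (fun t => N (π (δ t - δ s))) _ _
    simpa only [map_sub, hδ] using h5 s

lemma PC.equiv {G X : Type} [AddCommGroup G] [AddCommGroup X] (e : G ≃+ X) (h : PC X) : PC G := by
  obtain ⟨N, hN⟩ := h
  refine PC.pull e.toAddMonoidHom e.injective N fun g hg => ?_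
  obtain ⟨γ, h1⟩ := hN (e g) (by simpa using hg)
  exact ⟨γ, fun t => e.surjective _, h1⟩

lemma PC.prod {G X : Type} [AddCommGroup G] [AddCommGroup X] (hG : PC G) (hX : PC X) :
    PC (G × X) := by
  obtain ⟨N, hN⟩ := hG
  obtain ⟨M, hM⟩ := hX
  have aux : ∀ {Y : Type} [AddCommGroup Y] (N : AddGroupNorm Y),
      (∀ x : Y, x ≠ 0 → ∃ γ : ℝ → Y, γ 0 = 0 ∧ γ 1 = x ∧
        (∀ t, t < 1 → N (γ t) < N x) ∧ ∀ s, Tendsto (fun t => N (γ t - γ s)) (𝓝 s) (𝓝 0)) →
      ∀ x : Y, ∃ γ : ℝ → Y, γ 0 = 0 ∧ γ 1 = x ∧ (∀ t, t < 1 → N (γ t) ≤ N x) ∧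
        (x ≠ 0 → ∀ t, t < 1 → N (γ t) < N x) ∧
        ∀ s, Tendsto (fun t => N (γ t - γ s)) (𝓝 s) (𝓝 0) := by
    intro Y _ N h x
    by_cases hx : x = 0
    · exact ⟨fun _ => 0, rfl, hx.symm, fun _ _ => by simp [hx], fun h => absurd hx h,
        fun s => by simp⟩
    · obtain ⟨γ, h1, h2, h3, h4⟩ := h x hx
      exact ⟨γ, h1, h2, fun t ht => (h3 t ht).le, fun _ => h3, h4⟩
  refine ⟨⟨⟨fun g => N g.1 + M g.2, by simp, fun a b => ?_, fun a => by simp⟩, fun a ha => ?_⟩,
    fun g hg => ?_⟩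
  · have := map_add_le_add N a.1 b.1
    have := map_add_le_add M a.2 b.2
    simp only [Prod.fst_add, Prod.snd_add]; linarith
  · have h1 := apply_nonneg N a.1
    have h2 := apply_nonneg M a.2
    have ha' : N a.1 + M a.2 = 0 := ha
    exact Prod.ext (eq_zero_of_map_eq_zero N (by linarith)) (eq_zero_of_map_eq_zero M (by linarith))
  · obtain ⟨γ, a1, a2, a3, a4, a5⟩ := aux N hN g.1
    obtain ⟨δ, b1, b2, b3, b4, b5⟩ := aux M hM g.2
    refine ⟨fun t => (γ t, δ t), Prod.ext a1 b1, Prod.ext a2 b2, fun t ht => ?_, fun s => ?_⟩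
    · change N (γ t) + M (δ t) < N g.1 + M g.2
      by_cases h1 : g.1 = 0
      · have h2 : g.2 ≠ 0 := fun h => hg (Prod.ext h1 h)
        exact add_lt_add_of_le_of_lt (a3 t ht) (b4 h2 t ht)
      · exact add_lt_add_of_lt_of_le (a4 h1 t ht) (b3 t ht)
    · have := (a5 s).add (b5 s)
      rw [add_zero] at this
      exact this

lemma PC.unit : PC Unit :=
  ⟨⟨⟨fun _ => 0, rfl, fun _ _ => by simp, fun _ => rfl⟩, fun _ _ => rfl⟩, fun _ h => absurd rfl h⟩

/-- the topological consequence -/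
lemma PC.top {G : Type} [AddCommGroup G] (h : PC G) :
    ∃ _ : TopologicalSpace G, IsTopologicalAddGroup G ∧ T2Space G ∧ PathConnectedSpace G ∧
      ∀ (x : G) (U : Set G), IsOpen U → x ∈ U → ∃ V : Set G, IsOpen V ∧ x ∈ V ∧ closure V ⊆ U ∧
        IsPathConnected (closure V) := by
  obtain ⟨N, hN⟩ := h
  let I : NormedAddCommGroup G := N.toNormedAddCommGroup
  have key : ∀ x y : G, x ≠ y → ∃ γ : ℝ → G, Continuous γ ∧ γ 0 = x ∧ γ 1 = y ∧
      ∀ t, t < 1 → dist (γ t) x < dist y x := by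
    intro x y hxy
    obtain ⟨γ, h1, h2, h3, h4⟩ := hN (y - x) (sub_ne_zero.2 hxy.symm)
    have hc : Continuous γ := continuous_iff_continuousAt.2 fun s =>
      tendsto_iff_norm_sub_tendsto_zero.2 (h4 s)
    refine ⟨fun t => γ t + x, hc.add continuous_const, by simp [h1], by simp [h2], fun t ht => ?_⟩
    rw [dist_eq_norm, dist_eq_norm, add_sub_cancel_right]
    exact h3 t ht
  have join : ∀ (x y : G) (S : Set G), x ∈ S → y ∈ S → Metric.ball x (dist y x) ⊆ S →
      JoinedIn S x y := by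
    intro x y S hx hy hS
    by_cases hxy : x = y
    · subst hxy; exact JoinedIn.refl hx
    obtain ⟨γ, hc, h0, h1, h2⟩ := key x y hxy
    refine JoinedIn.ofLine hc.continuousOn h0 h1 ?_
    rintro _ ⟨t, ht, rfl⟩
    rcases ht.2.lt_or_eq with h | h
    · exact hS (h2 t h)
    · rw [h, h1]; exact hy
  refine ⟨inferInstance, inferInstance, inferInstance, ?_, fun x U hU hx => ?_⟩
  · rw [pathConnectedSpace_iff_univ]
    exact ⟨0, trivial, fun y _ => join 0 y _ trivial trivial (Set.subset_univ _)⟩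
  · obtain ⟨ε, hε, hb⟩ := Metric.nhds_basis_closedBall.mem_iff.1 (hU.mem_nhds hx)
    refine ⟨Metric.ball x ε, Metric.isOpen_ball, Metric.mem_ball_self hε,
      Metric.closure_ball_subset_closedBall.trans hb, x, subset_closure (Metric.mem_ball_self hε),
      fun y hy => join x y _ (subset_closure (Metric.mem_ball_self hε)) hy ?_⟩
    exact (Metric.ball_subset_ball (Metric.closure_ball_subset_closedBall hy)).trans subset_closure

/-- paths obtained from a contraction that preserves a subgroup -/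
lemma exists_path {X : Type} [NormedAddCommGroup X] (H : AddSubgroup X) (T : ℝ → X →+ X)
    (hTH : ∀ s, ∀ h ∈ H, T s h ∈ H) (hT0 : ∀ s ≤ 0, ∀ x, T s x = 0)
    (hT1 : ∀ s, 1 ≤ s → ∀ x, T s x = x) (hc : ∀ x, Continuous fun s => T s x)
    (hadd : ∀ s x, ‖T s x‖ + ‖x - T s x‖ = ‖x‖) (hmono : ∀ x, Monotone fun s => ‖T s x‖)
    {x : X} (hx : x ≠ 0) (hd : ∀ ε > 0, ∃ h ∈ H, ‖h - x‖ < ε) :
    ∃ γ : ℝ → X, Continuous γ ∧ γ 0 = 0 ∧ (∀ t, 1 ≤ t → γ t = x) ∧
      ∀ t, t < 1 → γ t ∈ H ∧ ‖γ t‖ < ‖x‖ := by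
  have hle : ∀ s y, ‖T s y‖ ≤ ‖y‖ := fun s y => by
    have := hadd s y; have := norm_nonneg (y - T s y); linarith
  have hx0 : 0 < ‖x‖ := norm_pos_iff.2 hx
  have hjoint : Continuous fun p : ℝ × X => T p.1 p.2 :=
    continuous_prod_of_continuous_lipschitzWith' _ 1
      (fun a => LipschitzWith.of_dist_le_mul fun y z => by
        simpa [dist_eq_norm, ← map_sub] using hle a (y - z)) hc
  set S := {s : ℝ | ‖T s x‖ = ‖x‖}
  have hS : IsClosed S := isClosed_eq (hc x).norm continuous_const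
  have hS0 : ∀ s ∈ S, 0 < s := fun s hs => by
    by_contra h
    have : ‖T s x‖ = ‖x‖ := hs
    rw [hT0 s (not_lt.1 h), norm_zero] at this
    exact hx0.ne this
  have hbdd : BddBelow S := ⟨0, fun s hs => (hS0 s hs).le⟩
  set a := sInf S
  have ha : a ∈ S := hS.csInf_mem ⟨1, by simp [S, hT1 1 le_rfl]⟩ hbdd
  have ha0 : 0 < a := hS0 a ha
  have hlt : ∀ s < a, ‖T s x‖ < ‖x‖ := fun s hs =>
    lt_of_le_of_ne (hle s x) fun h => notMem_of_lt_csInf hs hbdd h
  let r : ℕ → ℝ := fun n => a * ((n + 1) / (n + 2))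
  have hr : ∀ n, r n < a := fun n => mul_lt_of_lt_one_right ha0 (by
    rw [div_lt_one (by positivity)]; linarith)
  have hrm : ∀ n, r n ≤ r (n + 1) := fun n => mul_le_mul_of_nonneg_left (by
    rw [div_le_div_iff₀ (by positivity) (by positivity)]; push_cast; nlinarith) ha0.le
  let ε : ℕ → ℝ := fun n => min ((‖x‖ - ‖T (r n) x‖) / 3) (1 / (n + 1))
  have hε : ∀ n, 0 < ε n := fun n =>
    lt_min (by have := hlt _ (hr n); linarith) (by positivity)
  have hεm : ∀ n, ε (n + 1) ≤ ε n := fun n => min_le_min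
    (by have := hmono x (hrm n); dsimp only at this; linarith)
    (by push_cast; exact one_div_le_one_div_of_le (by positivity) (by linarith))
  choose h hH hh using fun n => hd (ε n) (hε n)
  let F : ℝ → X := fun τ => h 0 + ∑ n ∈ range ⌈τ⌉₊, T (τ - n) (h (n + 1) - h n)
  have hF : ∀ (M : ℕ) (τ : ℝ), τ ≤ M → F τ = h 0 + ∑ n ∈ range M, T (τ - n) (h (n + 1) - h n) := by
    intro M τ hτ
    simp only [F]
    congr 1
    refine sum_subset (range_subset_range.2 (Nat.ceil_le.2 hτ)) fun n _ hn => hT0 _ ?_ _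
    have : ⌈τ⌉₊ ≤ n := by simpa using hn
    linarith [Nat.ceil_le.1 this]
  have hFc : Continuous F := continuous_iff_continuousAt.2 fun τ => by
    have h1 : Continuous fun σ : ℝ => h 0 + ∑ n ∈ range (⌈τ⌉₊ + 1), T (σ - n) (h (n + 1) - h n) :=
      continuous_const.add (continuous_finsetSum _ fun n _ =>
        (hc _).comp (continuous_id.sub continuous_const))
    refine h1.continuousAt.congr ?_
    filter_upwards [Iio_mem_nhds (show τ < (⌈τ⌉₊ + 1 : ℕ) by
      push_cast; linarith [Nat.le_ceil τ])] with σ hσ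
    exact (hF _ σ (le_of_lt hσ)).symm
  have hFH : ∀ τ, F τ ∈ H := fun τ =>
    H.add_mem (hH 0) (H.sum_mem fun n _ => hTH _ _ (H.sub_mem (hH _) (hH _)))
  have hFx : ∀ τ, 0 ≤ τ → ‖F τ - x‖ < 3 * ε ⌊τ⌋₊ := fun τ hτ => by
    set n := ⌊τ⌋₊
    have h1 : (n : ℝ) ≤ τ := Nat.floor_le hτ
    have h2 : τ < n + 1 := Nat.lt_floor_add_one τ
    have h3 : ∑ k ∈ range n, T (τ - k) (h (k + 1) - h k) = h n - h 0 := by
      rw [← sum_range_sub h n]
      refine sum_congr rfl fun k hk => hT1 _ ?_ _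
      have : (k : ℝ) + 1 ≤ n := by exact_mod_cast mem_range.1 hk
      linarith
    rw [hF (n + 1) τ (by push_cast; linarith), sum_range_succ, h3]
    have h4 : h 0 + (h n - h 0 + T (τ - n) (h (n + 1) - h n)) - x =
        (h n - x) + T (τ - n) ((h (n + 1) - x) - (h n - x)) := by
      rw [sub_sub_sub_cancel_right]; abel
    rw [h4]
    have h5 := norm_add_le (h n - x) (T (τ - n) ((h (n + 1) - x) - (h n - x)))
    have h6 := (hle (τ - n) _).trans (norm_sub_le (h (n + 1) - x) (h n - x))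
    have := hh n; have := hh (n + 1); have := hεm n
    linarith
  let G : ℝ → X := fun t => if t < 1 then F (t / (1 - t)) else x
  have hGc : Continuous G := continuous_iff_continuousAt.2 fun t => by
    rcases lt_trichotomy t 1 with ht | rfl | ht
    · have h1 : ContinuousAt (fun s : ℝ => F (s / (1 - s))) t :=
        hFc.continuousAt.comp (continuousAt_id.div (continuousAt_const.sub continuousAt_id)
          (show 1 - t ≠ 0 by linarith))
      refine h1.congr ?_
      filter_upwards [Iio_mem_nhds ht] with s hs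
      simp only [G, if_pos (show s < 1 from hs)]
    · have hG1 : G 1 = x := by simp [G]
      rw [ContinuousAt, hG1, tendsto_iff_norm_sub_tendsto_zero]
      have h1 : Tendsto (fun s : ℝ => 6 * |1 - s|) (𝓝 1) (𝓝 0) := by
        have : Continuous fun s : ℝ => 6 * |1 - s| := by fun_prop
        simpa using this.tendsto 1
      refine squeeze_zero' (Eventually.of_forall fun _ => norm_nonneg _) ?_ h1
      filter_upwards [Ioi_mem_nhds (show (1 / 2 : ℝ) < 1 by norm_num)] with s hs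
      have hs' : 1 / 2 < s := hs
      by_cases h2 : s < 1
      · simp only [G, if_pos h2]
        have h3 : 0 < 1 - s := by linarith
        have h4 : 0 < s / (1 - s) := div_pos (by linarith) h3
        have h5 : ε ⌊s / (1 - s)⌋₊ ≤ 1 / (s / (1 - s)) :=
          (min_le_right _ _).trans (one_div_le_one_div_of_le h4 (Nat.lt_floor_add_one _).le)
        have h6 : 1 / (s / (1 - s)) ≤ 2 * (1 - s) := by
          rw [one_div_div, div_le_iff₀ (by linarith)]; nlinarith
        have := hFx _ h4.le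
        rw [abs_of_pos h3]; linarith
      · simp only [G, if_neg h2, sub_self, norm_zero]; positivity
    · refine (continuousAt_const (y := x)).congr ?_
      filter_upwards [Ioi_mem_nhds ht] with s hs
      simp only [G, if_neg (not_lt.2 (le_of_lt (show 1 < s from hs)))]
  refine ⟨fun t => T (a * t) (G t), hjoint.comp ((continuous_const.mul continuous_id).prodMk hGc),
    hT0 _ (by simp) _, fun t ht => ?_, fun t ht => ⟨?_, ?_⟩⟩
  · simp only [G, if_neg (not_lt.2 ht)]
    have h1 : ‖T a x‖ ≤ ‖T (a * t) x‖ := hmono x (le_mul_of_one_le_right ha0.le ht)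
    have h2 := hadd (a * t) x
    have h3 : ‖T a x‖ = ‖x‖ := ha
    have h4 : ‖x - T (a * t) x‖ ≤ 0 := by linarith
    exact (sub_eq_zero.1 (norm_le_zero_iff.1 h4)).symm
  · simp only [G, if_pos ht]; exact hTH _ _ (hFH _)
  · rcases le_or_gt t 0 with h0 | h0
    · dsimp only
      rw [hT0 _ (mul_nonpos_of_nonneg_of_nonpos ha0.le h0), norm_zero]; exact hx0
    simp only [G, if_pos ht]
    have h3 : 0 < 1 - t := by linarith
    have h4 : 0 < t / (1 - t) := div_pos h0 h3
    set n := ⌊t / (1 - t)⌋₊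
    have h5 : t / (1 - t) < n + 1 := Nat.lt_floor_add_one _
    rw [div_lt_iff₀ h3] at h5
    have h6 : a * t ≤ r n := mul_le_mul_of_nonneg_left (by
      rw [le_div_iff₀ (by positivity)]; linarith) ha0.le
    have h7 : ‖T (a * t) x‖ ≤ ‖T (r n) x‖ := hmono x h6
    have h8 := hFx _ h4.le
    have h9 : ε n ≤ (‖x‖ - ‖T (r n) x‖) / 3 := min_le_left _ _
    have h10 : T (a * t) (F (t / (1 - t))) = T (a * t) x + T (a * t) (F (t / (1 - t)) - x) := by
      rw [← map_add, add_sub_cancel]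
    rw [h10]
    have := norm_add_le (T (a * t) x) (T (a * t) (F (t / (1 - t)) - x))
    have := hle (a * t) (F (t / (1 - t)) - x)
    linarith

end Pool.Agent.H292Z.MGrp
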